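import Pool.Agent.P.MP_029dcd_co.F.N.Lim

/-! Layer N: convergence of codes gives convergence of galaxies. -/

set_option autoImplicit false

namespace ECub.N

open CubicStab MeasureTheory Filter Topology Finset
open scoped ENNReal

theorem measurable_co (w : Z2) (i : Ix) : Measurable fun ω : KK => ω w i :=
  (measurable_pi_apply i).comp (measurable_pi_apply w)

theorem measurable_dn : Measurable dn := Nat.measurable_floor.comp measurable_ereal_toReal

theorem measurable_db : Measurable db := by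
  classical
  refine measurable_to_bool ?_
  have : db ⁻¹' {true} = {1} := by
    ext a
    simp [db]
  rw [this]
  exact measurableSet_singleton _

theorem measurable_vv (l : ℕ) (x : Z2) : Measurable fun ω : KK => vv ω l x :=
  (measurable_ereal_toReal.comp (measurable_co _ _)).prodMk
    (measurable_ereal_toReal.comp (measurable_co _ _))

theorem measurableSet_good (l : ℕ) : MeasurableSet {ω : KK | Good l ω} := by
  have h : ∀ (i : Ix) (a : EReal), MeasurableSet {ω : KK | ω 0 i ≠ a} := fun i a =>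
    (measurable_co 0 i (measurableSet_singleton a)).compl
  unfold Good
  simp only [Set.ofPred_and, Set.ofPred_forall, Set.ofPred_exists]
  refine (MeasurableSet.iInter fun x => ?_).inter (MeasurableSet.iUnion fun x => ?_)
  · exact (h _ _).inter ((h _ _).inter ((h _ _).inter (h _ _)))
  · exact (measurable_vv l x (measurableSet_singleton 0)).compl

theorem measurable_lv : Measurable lv := by
  classical
  refine measurable_to_countable' fun n => ?_
  have : lv ⁻¹' {n} = ({ω | Good n ω} ∩ ⋂ m : Fin n, {ω | Good m ω}ᶜ) ∪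
      ({_ω | n = 0} ∩ ⋂ m : ℕ, {ω | Good m ω}ᶜ) := by
    ext ω
    simp only [Set.mem_preimage, Set.mem_singleton_iff, Set.mem_union, Set.mem_inter_iff,
      Set.mem_iInter, Set.mem_compl_iff, Set.mem_ofPred_eq, lv]
    constructor
    · intro e
      by_cases hx : ∃ l, Good l ω
      · left
        refine ⟨e ▸ Nat.sInf_mem hx, fun m hm => ?_⟩
        have := Nat.sInf_le (s := {l | Good l ω}) hm
        have := m.2
        omega
      · right
        push Not at hx
        refine ⟨?_, hx⟩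
        rw [← e, Nat.sInf_eq_zero]
        right
        exact Set.eq_empty_of_forall_notMem hx
    · rintro (⟨a, b⟩ | ⟨a, b⟩)
      · refine le_antisymm (Nat.sInf_le a) (not_lt.1 fun hlt => ?_)
        exact b ⟨_, hlt⟩ (Nat.sInf_mem (s := {l | Good l ω}) ⟨n, a⟩)
      · rw [a, Nat.sInf_eq_zero]
        right
        exact Set.eq_empty_of_forall_notMem b
  rw [this]
  exact ((measurableSet_good n).inter
    (MeasurableSet.iInter fun m : Fin n => (measurableSet_good m).compl)).union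
    ((MeasurableSet.const _).inter (MeasurableSet.iInter fun m => (measurableSet_good m).compl))

theorem measurable_at_lv {β : Type*} [MeasurableSpace β] {f : KK → ℕ → β}
    (hf : ∀ l, Measurable fun ω => f ω l) : Measurable fun ω => f ω (lv ω) :=
  (measurable_from_prod_countable_left (f := fun p : KK × ℕ => f p.1 p.2) hf).comp
    (measurable_id.prodMk measurable_lv)

theorem galMeas : GalMeas gal where
  g := fun _ => measurable_dn.comp (measurable_co _ _)
  fam := fun _ => (measurable_from_top (f := Fin.ofNat 3)).comp (measurable_dn.comp (measurable_co _ _))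
  can := fun _ => measurable_db.comp (measurable_co _ _)
  same := fun _ _ => measurable_db.comp (measurable_co _ _)
  cr := fun _ _ _ => measurable_db.comp (measurable_co _ _)
  tp := fun _ => measurable_db.comp (measurable_co _ _)
  tl := fun _ _ => measurable_dn.comp (measurable_co _ _)
  t := fun _ => measurable_ereal_toReal.comp (measurable_co _ _)
  s := fun l => measurable_at_lv (f := fun ω a => (ω 0 (12, a, l.1, l.2)).toReal)
    fun _ => measurable_ereal_toReal.comp (measurable_co _ _)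
  v := fun w => measurable_at_lv (f := fun ω a => vv ω a w) fun a => measurable_vv a w

theorem measurable_FF : Measurable FF :=
  EReal.continuous_toENNReal.measurable.comp (measurable_co _ _)

theorem shift_gal (ω : KK) (w : Z2)
    (geo : ∃ c : ℝ, 0 < c ∧ (∀ x, (gal (sh w ω)).v x = c • ((gal ω).v (w + x) - (gal ω).v w)) ∧
      ∀ x j, (gal ω).valid (w + x, j) → (gal (sh w ω)).s (x, j) =
        c * ((gal ω).s (w + x, j) + (gal ω).t (w + x, j) * ((gal ω).v w).1 - ((gal ω).v w).2)) :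
    (gal ω).Shift (gal (sh w ω)) w :=
  ⟨fun _ => rfl, fun _ _ => rfl, fun _ _ => rfl, fun x j x' j' => by
    simp only [gal, sh, add_sub_add_left_eq_sub], fun _ _ _ => rfl, fun _ => rfl, fun _ _ => rfl,
    fun _ _ => rfl, geo⟩

theorem good_lv {ω : KK} (h : ∃ l, Good l ω) : Good (lv ω) ω := Nat.sInf_mem h

theorem ev_bool {b : ℕ → Bool} {a : EReal} (h : Tendsto (fun n => eb (b n)) atTop (𝓝 a)) :
    ∀ᶠ n in atTop, b n = db a := by
  by_cases ha : a = 1
  · have := h.eventually_ne (b₂ := 0) (by rw [ha]; exact one_ne_zero)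
    refine this.mono fun n hn => ?_
    cases hb : b n
    · simp [eb, hb] at hn
    · simp [db, ha]
  · refine (h.eventually_ne ha).mono fun n hn => ?_
    cases hb : b n
    · simp [db, ha]
    · simp [eb, hb] at hn

theorem lim_real {f : ℕ → ℝ} {a : EReal} (h : Tendsto (fun n => ((f n : ℝ) : EReal)) atTop (𝓝 a))
    (h1 : a ≠ ⊤) (h2 : a ≠ ⊥) : Tendsto f atTop (𝓝 a.toReal) := by
  simpa [Function.comp_def] using (EReal.tendsto_toReal h1 h2).comp h

theorem fin_of_bdd {f : ℕ → ℝ} {a : EReal}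
    (h : Tendsto (fun n => ((f n : ℝ) : EReal)) atTop (𝓝 a)) {B : ℝ}
    (hb : ∀ᶠ n in atTop, |f n| ≤ B) : a ≠ ⊤ ∧ a ≠ ⊥ := by
  have u : a ≤ (B : EReal) :=
    le_of_tendsto h (hb.mono fun n hn => EReal.coe_le_coe_iff.2 (abs_le.1 hn).2)
  have d : ((-B : ℝ) : EReal) ≤ a :=
    ge_of_tendsto h (hb.mono fun n hn => EReal.coe_le_coe_iff.2 (abs_le.1 hn).1)
  exact ⟨ne_top_of_le_ne_top (EReal.coe_ne_top B) u, ne_bot_of_le_ne_bot (EReal.coe_ne_bot _) d⟩

theorem ev_nat {b : ℕ → ℕ} {a : EReal} (h : Tendsto (fun n => en (b n)) atTop (𝓝 a)) {B : ℝ}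
    (hb : ∀ᶠ n in atTop, (b n : ℝ) ≤ B) : ∀ᶠ n in atTop, b n = dn a := by
  obtain ⟨h1, h2⟩ := fin_of_bdd (f := fun n => (b n : ℝ)) h (B := B)
    (hb.mono fun n hn => by rwa [Nat.abs_cast])
  have t := lim_real (f := fun n => (b n : ℝ)) h h1 h2
  obtain ⟨m, hm⟩ : a.toReal ∈ Set.range ((↑) : ℕ → ℝ) :=
    Nat.isClosedEmbedding_coe_real.isClosed_range.mem_of_tendsto t
      (Eventually.of_forall fun n => ⟨b n, rfl⟩)
  rw [← hm] at t
  have t' : Tendsto b atTop (𝓝 m) :=
    Nat.isClosedEmbedding_coe_real.isEmbedding.tendsto_nhds_iff.2 t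
  rw [nhds_discrete, tendsto_pure] at t'
  refine t'.mono fun n hn => ?_
  rw [hn, dn, ← hm, Nat.floor_natCast]

variable {G : ℕ → Gal} {φ : ℕ → Z2 → ℕ → ℕ → Bool} {y : ℕ → Z2} {ω : KK}

theorem co_lim (hc : Tendsto (fun n => sh (y n) (code (G n) (φ n))) atTop (𝓝 ω)) (w : Z2)
    (i : Ix) : Tendsto (fun n => code (G n) (φ n) (y n + w) i) atTop (𝓝 (ω w i)) :=
  tendsto_pi_nhds.1 (tendsto_pi_nhds.1 hc w) i

theorem co_lim0 (hc : Tendsto (fun n => sh (y n) (code (G n) (φ n))) atTop (𝓝 ω))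
    (i : Ix) : Tendsto (fun n => code (G n) (φ n) (y n) i) atTop (𝓝 (ω 0 i)) := by
  simpa only [add_zero] using co_lim hc 0 i

theorem F_of_code' (hc : Tendsto (fun n => sh (y n) (code (G n) (φ n))) atTop (𝓝 ω)) (w : Z2) :
    Tendsto (fun n => Fv (G n) (y n + w)) atTop (𝓝 (FF (sh w ω))) := by
  have := (EReal.continuous_toENNReal.tendsto _).comp (co_lim hc w (1, 0, 0, 0))
  simpa only [FF, sh, add_zero, Function.comp_def, code, EReal.toENNReal_coe] using this

theorem F_of_code (hc : Tendsto (fun n => sh (y n) (code (G n) (φ n))) atTop (𝓝 ω)) :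
    Tendsto (fun n => Fv (G n) (y n)) atTop (𝓝 (FF ω)) := by
  simpa only [FF, sh, add_zero] using F_of_code' hc 0

theorem flag_of_code (hc : Tendsto (fun n => sh (y n) (code (G n) (φ n))) atTop (𝓝 ω))
    {m u : ℕ} (h : ω 0 (9, m, 0, u) ≠ 1) : ∀ᶠ n in atTop, φ n (y n) m u = false := by
  have := ev_bool (b := fun n => φ n (y n) m u) (co_lim0 hc (9, m, 0, u))
  refine this.mono fun n hn => ?_
  rw [hn]
  simp [db, h]

theorem dlim_of_code (hc : Tendsto (fun n => sh (y n) (code (G n) (φ n))) atTop (𝓝 ω))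
    (hfin : ∀ w, FF (sh w ω) ≠ ∞)
    (htp : ∀ n w i, (G n).tp w = true → (G n).valid ((G n).tlab w i)) (c : ℕ → ℝ) :
    DLim (fun n => nrm (G n) (y n) (c n)) (gal ω) := by
  have hg : ∀ w, ∃ B : ℝ, ∀ᶠ n in atTop, ((G n).g (y n + w) : ℝ) ≤ B := by
    intro w
    obtain ⟨m, hm⟩ := ENNReal.exists_nat_gt (hfin w)
    refine ⟨m, ((F_of_code' hc w).eventually_lt_const hm).mono fun n hn => ?_⟩
    have : ((G n).g (y n + w) : ℝ≥0∞) < m := lt_of_le_of_lt (le_self_add.trans le_self_add) hn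
    exact_mod_cast this.le
  have ht : ∀ w, ∀ᶠ n in atTop, (G n).tp (y n + w) = (gal ω).tp w := fun w =>
    ev_bool (co_lim hc w (2, 0, 0, 0))
  refine ⟨fun w => ?_, fun l => ?_, fun l => ev_bool (co_lim hc l.1 (5, l.2, 0, 0)),
    fun l l' => ?_, fun w j j' => ev_bool (co_lim hc w (8, j, 0, j')), ht, fun w hw i => ?_⟩
  · obtain ⟨B, hB⟩ := hg w
    exact ev_nat (co_lim hc w (0, 0, 0, 0)) hB
  · have := ev_nat (b := fun n => ((G n).fam (y n + l.1, l.2) : ℕ))
      (co_lim hc l.1 (4, l.2, 0, 0)) (B := 3) (Eventually.of_forall fun n => by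
        exact_mod_cast ((G n).fam (y n + l.1, l.2)).2.le)
    refine this.mono fun n hn => ?_
    simp only [nrm, gal]
    rw [← hn, Fin.ofNat_val_eq_self]
  · have := ev_bool (b := fun n => (G n).same (y n + l.1, l.2) (y n + l.1 + (l'.1 - l.1), l'.2))
      (co_lim hc l.1 (7, l.2, l'.1 - l.1, l'.2))
    simpa only [nrm, gal, add_assoc, add_sub_cancel] using this
  · obtain ⟨B, hB⟩ := hg w
    have := ev_nat (b := fun n => (G n).tl (y n + w) (Fin.ofNat 3 i.val))
      (co_lim hc w (3, i.val, 0, 0)) (B := B) (by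
        filter_upwards [hB, ht w] with n a b
        have := htp n (y n + w) (Fin.ofNat 3 i.val) (b.trans hw)
        exact le_trans (by exact_mod_cast le_of_lt this) a)
    simpa only [nrm, gal, Fin.ofNat_val_eq_self] using this

theorem nrm_v (G : Gal) (y : Z2) (c : ℝ) (x : Z2) : (nrm G y c).v x = c • (nrm G y 1).v x := by
  simp only [nrm, one_smul]

theorem DD_eq (G : Gal) (y : Z2) (l : ℕ) : DD G y l =
    ‖(nrm G y 1).v ((l : ℤ), (l : ℤ)) - (nrm G y 1).v (-(l : ℤ), -(l : ℤ))‖ := by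
  simp only [nrm, one_smul, sub_sub_sub_cancel_right, DD, sub_eq_add_neg y, Prod.neg_mk]

theorem good_of_code (hc : Tendsto (fun n => sh (y n) (code (G n) (φ n))) atTop (𝓝 ω))
    (hD : DLim (fun n => nrm (G n) (y n) 1) (gal ω)) {U : ℕ → Set Z2}
    (hU : ∀ w, ∀ᶠ n in atTop, w ∈ U n) {τ K C : ℝ} {A0 : ℕ} {ε : ℝ} {n0 : ℕ}
    (hG : ∀ n, Geo (nrm (G n) (y n) 1) (U n) τ K C A0 ε n0)
    (hCR : ∀ᶠ n : ℕ in atTop, (gal ω).CR 0 (A0 * n) τ K (ε * (n : ℝ) ^ 2)) :
    ∃ l, Good l ω := by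
  obtain ⟨l0, hl0⟩ := eventually_atTop.1 hCR
  set l := max (max l0 n0) 1 with hl
  have hq : ∀ m, l ≤ m → ∀ᶠ n in atTop, (nrm (G n) (y n) 1).QS 0 m C ∧
      (nrm (G n) (y n) 1).v (0 + ((m : ℤ), (m : ℤ))) ≠
        (nrm (G n) (y n) 1).v (0 - ((m : ℤ), (m : ℤ))) := by
    intro m hm
    filter_upwards [hD.cr_ev (hl0 m (by omega)),
      (eventually_all_finset (box 0 (A0 * m))).2 fun x _ => hU x] with n a b
    exact hG n 0 m (by omega) b a
  have hpos : ∀ᶠ n in atTop, 0 < DD (G n) (y n) l := by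
    refine (hq l le_rfl).mono fun n hn => ?_
    rw [DD_eq, norm_pos_iff, sub_ne_zero]
    simpa only [zero_add, zero_sub, Prod.neg_mk] using hn.2
  have hstep : ∀ m, l ≤ m → ∀ᶠ n in atTop, ∀ w3 ∈ box 0 (3 * m), ∀ w4 ∈ box 0 (3 * m),
      ‖(nrm (G n) (y n) 1).v w3 - (nrm (G n) (y n) 1).v w4‖ ≤ |C| * DD (G n) (y n) m := by
    intro m hm
    refine (hq m hm).mono fun n hn w3 a w4 b => ?_
    rw [DD_eq]
    refine (hn.1 ((m : ℤ), (m : ℤ)) ?_ (-(m : ℤ), -(m : ℤ)) ?_ w3 a w4 b ?_).trans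
      (mul_le_mul_of_nonneg_right (le_abs_self C) (norm_nonneg _))
    · simp only [mem_box, Prod.fst_zero, Prod.snd_zero]
      omega
    · simp only [mem_box, Prod.fst_zero, Prod.snd_zero]
      omega
    · refine le_max_of_le_left (le_trans ?_ (le_abs_self _))
      simp only
      omega
  have hb : ∀ m, l ≤ m → ∃ B : ℝ, ∀ᶠ n in atTop, ∀ w3 ∈ box 0 m, ∀ w4 ∈ box 0 m,
      ‖(nrm (G n) (y n) 1).v w3 - (nrm (G n) (y n) 1).v w4‖ ≤ B * DD (G n) (y n) l := by
    intro m hm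
    induction m, hm using Nat.le_induction with
    | base =>
      refine ⟨|C|, (hstep l le_rfl).mono fun n hn w3 a w4 b => hn w3 ?_ w4 ?_⟩
      · simp only [mem_box, Prod.fst_zero, Prod.snd_zero] at a ⊢
        omega
      · simp only [mem_box, Prod.fst_zero, Prod.snd_zero] at b ⊢
        omega
    | succ m hm ih =>
      obtain ⟨B, hB⟩ := ih
      refine ⟨|C| * B, ?_⟩
      filter_upwards [hB, hstep m hm] with n h1 h2 w3 a w4 b
      refine (h2 w3 ?_ w4 ?_).trans ?_
      · simp only [mem_box, Prod.fst_zero, Prod.snd_zero] at a ⊢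
        omega
      · simp only [mem_box, Prod.fst_zero, Prod.snd_zero] at b ⊢
        omega
      · rw [mul_assoc]
        refine mul_le_mul_of_nonneg_left ?_ (abs_nonneg C)
        rw [DD_eq (G n) (y n) m]
        refine h1 _ ?_ _ ?_
        · simp only [mem_box, Prod.fst_zero, Prod.snd_zero]
          omega
        · simp only [mem_box, Prod.fst_zero, Prod.snd_zero]
          omega
  have hx : ∀ x : Z2, ∃ B : ℝ, ∀ᶠ n in atTop,
      ‖(nrm (G n) (y n) (DD (G n) (y n) l)⁻¹).v x‖ ≤ B := by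
    intro x
    obtain ⟨B, hB⟩ := hb (max l (x.1.natAbs + x.2.natAbs)) (le_max_left _ _)
    refine ⟨B, ?_⟩
    filter_upwards [hB, hpos] with n h1 h2
    have := h1 x (by
      simp only [mem_box, Prod.fst_zero, Prod.snd_zero]
      omega) 0 (by
      simp only [mem_box, Prod.fst_zero, Prod.snd_zero]
      omega)
    have e : (nrm (G n) (y n) 1).v 0 = 0 := by simp [nrm]
    rw [e, sub_zero] at this
    rw [nrm_v, norm_smul, norm_inv, Real.norm_eq_abs, abs_of_pos h2, inv_mul_le_iff₀ h2, mul_comm]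
    exact this
  have hf : ∀ x, ω 0 (10, l, x, 0) ≠ ⊤ ∧ ω 0 (10, l, x, 0) ≠ ⊥ ∧ ω 0 (11, l, x, 0) ≠ ⊤ ∧
      ω 0 (11, l, x, 0) ≠ ⊥ := by
    intro x
    obtain ⟨B, hB⟩ := hx x
    have a := fin_of_bdd (co_lim0 hc (10, l, x, 0)) (B := B)
      (hB.mono fun n hn => (norm_fst_le _).trans hn)
    have b := fin_of_bdd (co_lim0 hc (11, l, x, 0)) (B := B)
      (hB.mono fun n hn => (norm_snd_le _).trans hn)
    exact ⟨a.1, a.2, b.1, b.2⟩
  refine ⟨l, hf, ?_⟩
  have hv : ∀ x, Tendsto (fun n => (nrm (G n) (y n) (DD (G n) (y n) l)⁻¹).v x) atTop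
      (𝓝 (vv ω l x)) := fun x =>
    (lim_real (co_lim0 hc (10, l, x, 0)) (hf x).1 (hf x).2.1).prodMk_nhds
      (lim_real (co_lim0 hc (11, l, x, 0)) (hf x).2.2.1 (hf x).2.2.2)
  by_contra h0
  push Not at h0
  have t := ((hv ((l : ℤ), (l : ℤ))).sub (hv (-(l : ℤ), -(l : ℤ)))).norm
  rw [h0, h0, sub_zero, norm_zero] at t
  obtain ⟨n, a, b⟩ := ((t.eventually_lt_const one_pos).and hpos).exists
  rw [nrm_v, nrm_v _ _ _ (-(l : ℤ), -(l : ℤ)), ← smul_sub, norm_smul, ← DD_eq, norm_inv,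
    Real.norm_eq_abs, abs_of_pos b, inv_mul_cancel₀ b.ne'] at a
  exact lt_irrefl _ a

theorem lim_of_code (hc : Tendsto (fun n => sh (y n) (code (G n) (φ n))) atTop (𝓝 ω))
    (hD : ∀ c : ℕ → ℝ, DLim (fun n => nrm (G n) (y n) (c n)) (gal ω)) {k : ℕ}
    {r : ℕ → Lb → Pt} {U : ℕ → Set Z2}
    (hL : ∀ n (c : ℝ), 0 < c → Loc k (nrm (G n) (y n) c) (r n) (U n))
    (hU : ∀ w, ∀ᶠ n in atTop, w ∈ U n) (hg : ∃ l, Good l ω) :
    ∃ c : ℕ → ℝ, (∀ n, 0 < c n) ∧ Lim (fun n => nrm (G n) (y n) (c n)) (gal ω) := by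
  classical
  obtain ⟨hf, x0, hx0⟩ := good_lv hg
  set l := lv ω with hl
  have hv : ∀ x, Tendsto (fun n => (nrm (G n) (y n) (DD (G n) (y n) l)⁻¹).v x) atTop
      (𝓝 (vv ω l x)) := fun x =>
    (lim_real (co_lim0 hc (10, l, x, 0)) (hf x).1 (hf x).2.1).prodMk_nhds
      (lim_real (co_lim0 hc (11, l, x, 0)) (hf x).2.2.1 (hf x).2.2.2)
  have hpos : ∀ᶠ n in atTop, 0 < DD (G n) (y n) l := by
    refine ((hv x0).eventually_ne hx0).mono fun n hn => ?_
    refine lt_of_le_of_ne (norm_nonneg _) fun e => hn ?_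
    have e' : DD (G n) (y n) l = 0 := e.symm
    rw [nrm_v, e', inv_zero, zero_smul]
  let c : ℕ → ℝ := fun n => if 0 < DD (G n) (y n) l then (DD (G n) (y n) l)⁻¹ else 1
  have hc0 : ∀ n, 0 < c n := fun n => by
    simp only [c]
    split_ifs with h
    · exact inv_pos.2 h
    · exact one_pos
  have hce : ∀ᶠ n in atTop, c n = (DD (G n) (y n) l)⁻¹ := hpos.mono fun n hn => if_pos hn
  have hv' : ∀ x, Tendsto (fun n => (nrm (G n) (y n) (c n)).v x) atTop (𝓝 ((gal ω).v x)) :=
    fun x => (hv x).congr' (hce.mono fun n hn => by simp only [hn])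
  have ht : ∀ p, (gal ω).valid p →
      Tendsto (fun n => (nrm (G n) (y n) (c n)).t p) atTop (𝓝 ((gal ω).t p)) := by
    intro p hp
    have t := co_lim hc p.1 (6, p.2, 0, 0)
    have b := fin_of_bdd (f := fun n => (nrm (G n) (y n) (c n)).t p) t (B := 2) (by
      filter_upwards [(hD c).valid p] with n a
      have := (hL n (c n) (hc0 n)).slope p (a.2 hp)
      have h1 : |ctr ((nrm (G n) (y n) (c n)).fam p)| ≤ 1 := by
        generalize (nrm (G n) (y n) (c n)).fam p = i
        fin_cases i <;> simp [ctr]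
      rw [abs_le] at *
      constructor <;> linarith [this.1, this.2, h1.1, h1.2])
    exact lim_real (f := fun n => (nrm (G n) (y n) (c n)).t p) t b.1 b.2
  refine ⟨c, hc0, hD c, ht, fun p hp => ?_, hv'⟩
  have t : Tendsto (fun n => (((nrm (G n) (y n) (c n)).s p : ℝ) : EReal)) atTop
      (𝓝 (ω 0 (12, l, p.1, p.2))) :=
    (co_lim0 hc (12, l, p.1, p.2)).congr' (hce.mono fun n hn => by simp only [hn, code])
  have t1 : Tendsto (fun n => 6 * (nrm (G n) (y n) (c n)).cs p.1 +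
      |(nrm (G n) (y n) (c n)).t p * ((nrm (G n) (y n) (c n)).v p.1).1 -
        ((nrm (G n) (y n) (c n)).v p.1).2|) atTop (𝓝 _) :=
    (((hv' p.1).snd_nhds.sub (hv' (p.1 - (1, 1))).snd_nhds).const_mul 6).add
      (((ht p hp).mul (hv' p.1).fst_nhds).sub (hv' p.1).snd_nhds).abs
  have b := fin_of_bdd t (by
    filter_upwards [(hD c).valid p, hU p.1, t1.eventually_lt_const (lt_add_one _)] with n a u e
    have := (hL n (c n) (hc0 n)).near p (a.2 hp) u
    refine le_trans ?_ e.le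
    have h2 := abs_sub ((nrm (G n) (y n) (c n)).t p * ((nrm (G n) (y n) (c n)).v p.1).1 +
      (nrm (G n) (y n) (c n)).s p - ((nrm (G n) (y n) (c n)).v p.1).2)
      ((nrm (G n) (y n) (c n)).t p * ((nrm (G n) (y n) (c n)).v p.1).1 -
        ((nrm (G n) (y n) (c n)).v p.1).2)
    rw [show ∀ a b c : ℝ, a + b - c - (a - c) = b from fun a b c => by ring] at h2
    linarith)
  exact lim_real t b.1 b.2

theorem exists_appr {c : ℕ → KK} {U : ℕ → Set Z2} {ω : KK} (h : ∀ m, ω ∈ Lam c U m) :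
    ∃ (n : ℕ → ℕ) (y : ℕ → Z2), (∀ w, ∀ᶠ j in atTop, y j + w ∈ U (n j)) ∧
      Tendsto (fun j => sh (y j) (c (n j))) atTop (𝓝 ω) := by
  obtain ⟨s, hs⟩ := (𝓝 ω).exists_antitone_basis
  have : ∀ m, ∃ (n : ℕ) (y : Z2), (∀ z ∈ box y m, z ∈ U n) ∧ sh y (c n) ∈ s m := by
    intro m
    obtain ⟨x, hx, n, y, h1, h2⟩ := mem_closure_iff_nhds.1 (h m) (s m) (hs.1.mem_of_mem trivial)
    exact ⟨n, y, h1, h2 ▸ hx⟩
  choose n y h1 h2 using this
  refine ⟨n, y, fun w => ?_, hs.tendsto h2⟩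
  filter_upwards [eventually_ge_atTop (w.1.natAbs + w.2.natAbs)] with j hj
  refine h1 j _ ?_
  simp only [mem_box, Prod.fst_add, Prod.snd_add]
  omega

end ECub.N
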