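import Pool.Agent.P.MP_029dcd_co.F.N.Def
import Pool.Agent.P.MP_029dcd_co.F.LayB
import Pool.Agent.P.MP_029dcd_co.F.LayE

/-! Layer N: the limit of the empirical measures. -/

set_option autoImplicit false

namespace ECub.N

open CubicStab MeasureTheory Filter Topology Finset
open scoped ENNReal

section Abstract

variable {X : Type} [TopologicalSpace X] [CompactSpace X] [TopologicalSpace.MetrizableSpace X]
  [MeasurableSpace X] [BorelSpace X] {μ : Measure X} [IsProbabilityMeasure μ]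
  {𝒰 : Ultrafilter ℕ} {B : ℕ → Finset Z2} {x : ℕ → Z2 → X}

theorem emp_int (Φ : C(X, ℝ)) : Integrable Φ μ :=
  (BoundedContinuousFunction.mkOfCompact Φ).integrable μ

open Classical in
/-- open sets that are rarely visited have small measure -/
theorem emp_open (hB : ∀ n, (0 : ℝ) < (B n).card)
    (hlim : ∀ Φ : C(X, ℝ), Tendsto (fun n => (∑ y ∈ B n, Φ (x n y)) / (B n).card) 𝒰
      (𝓝 (∫ z, Φ z ∂μ))) {V : Set X} (hV : IsOpen V) {b : ℝ}
    (h : ∀ᶠ n in (𝒰 : Filter ℕ), ∃ S : Finset Z2, (∀ y ∈ B n, x n y ∈ V → y ∈ S) ∧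
      (S.card : ℝ) ≤ b * (B n).card) : μ V ≤ ENNReal.ofReal b := by
  rw [hV.measure_eq_iSup_isClosed μ]
  refine iSup_le fun F => iSup_le fun hFV => iSup_le fun hF => ?_
  obtain ⟨Φ, h0, h1, h01⟩ := exists_continuous_zero_one_of_isClosed hV.isClosed_compl hF
    (Set.disjoint_left.2 fun z hz hz' => hz (hFV hz'))
  have hle : ∫ z, Φ z ∂μ ≤ b := by
    refine le_of_tendsto (hlim Φ) (h.mono ?_)
    rintro n ⟨S, hS, hc⟩
    rw [div_le_iff₀ (hB n)]
    refine le_trans ?_ hc
    calc ∑ y ∈ B n, Φ (x n y) ≤ ∑ y ∈ B n, (if y ∈ S then (1 : ℝ) else 0) := by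
          refine sum_le_sum fun y hy => ?_
          split_ifs with hyS
          · exact (h01 _).2
          · have h2 : x n y ∈ Vᶜ := fun hv => hyS (hS y hy hv)
            exact (h0 h2).le
      _ = ((B n ∩ S).card : ℝ) := by
          rw [sum_ite_mem, sum_const, nsmul_eq_mul, mul_one]
      _ ≤ S.card := Nat.cast_le.2 (card_le_card inter_subset_right)
  have hge : μ.real F ≤ ∫ z, Φ z ∂μ := by
    rw [← integral_indicator_one hF.measurableSet]
    refine integral_mono ((integrable_const (1 : ℝ)).indicator hF.measurableSet) (emp_int Φ)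
      fun z => ?_
    by_cases hz : z ∈ F
    · rw [Set.indicator_of_mem hz]
      exact (h1 hz).ge
    · rw [Set.indicator_of_notMem hz]
      exact (h01 z).1
  rw [← ofReal_measureReal (measure_ne_top μ F)]
  exact ENNReal.ofReal_le_ofReal (hge.trans hle)

/-- continuous functions with bounded means have a finite integral -/
theorem emp_lint (hB : ∀ n, (0 : ℝ) < (B n).card)
    (hlim : ∀ Φ : C(X, ℝ), Tendsto (fun n => (∑ y ∈ B n, Φ (x n y)) / (B n).card) 𝒰
      (𝓝 (∫ z, Φ z ∂μ))) {F : X → ℝ≥0∞} (hF : Continuous F) {b : ℝ} (hb : 0 ≤ b)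
    (h : ∀ n, ∑ y ∈ B n, F (x n y) ≤ ENNReal.ofReal (b * (B n).card)) :
    ∫⁻ z, F z ∂μ < ∞ := by
  have h1 : ∀ M : ℕ, ∫⁻ z, min (M : ℝ≥0∞) (F z) ∂μ ≤ ENNReal.ofReal b := by
    intro M
    have hM : (M : ℝ≥0∞) ≠ ∞ := ENNReal.natCast_ne_top M
    have hne : ∀ z, min (M : ℝ≥0∞) (F z) ≠ ∞ := fun z =>
      ne_top_of_le_ne_top hM (min_le_left _ _)
    let Φ : C(X, ℝ) := ⟨fun z => (min (M : ℝ≥0∞) (F z)).toReal,
      (ENNReal.continuous_truncateToReal hM).comp hF⟩
    have hle : ∫ z, Φ z ∂μ ≤ b := by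
      refine le_of_tendsto' (hlim Φ) fun n => ?_
      rw [div_le_iff₀ (hB n)]
      change ∑ y ∈ B n, (min (M : ℝ≥0∞) (F (x n y))).toReal ≤ _
      rw [← ENNReal.toReal_sum fun y _ => hne _]
      refine ENNReal.toReal_le_of_le_ofReal (mul_nonneg hb (hB n).le) (le_trans ?_ (h n))
      exact sum_le_sum fun y _ => min_le_right _ _
    have h2 := ofReal_integral_eq_lintegral_ofReal (emp_int (μ := μ) Φ)
      (Eventually.of_forall fun z => ENNReal.toReal_nonneg)
    have h3 : ∀ z, ENNReal.ofReal (Φ z) = min (M : ℝ≥0∞) (F z) := fun z =>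
      ENNReal.ofReal_toReal (hne z)
    simp only [h3] at h2
    rw [← h2]
    exact ENNReal.ofReal_le_ofReal hle
  have h2 : ∀ z, F z = ⨆ M : ℕ, min (M : ℝ≥0∞) (F z) := by
    intro z
    rw [← iSup_inf_eq, ENNReal.iSup_natCast, top_inf_eq]
  have h3 : ∫⁻ z, F z ∂μ = ⨆ M : ℕ, ∫⁻ z, min (M : ℝ≥0∞) (F z) ∂μ := by
    rw [← lintegral_iSup (fun M => measurable_const.min hF.measurable)
      (fun M M' hM z => min_le_min_right _ (Nat.cast_le.2 hM))]
    exact lintegral_congr h2
  rw [h3]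
  exact lt_of_le_of_lt (iSup_le h1) ENNReal.ofReal_lt_top

end Abstract

theorem emp_zero {a : ℝ≥0∞} (h : ∀ b : ℝ, 0 < b → a ≤ ENNReal.ofReal b) : a = 0 := by
  refine le_antisymm (ENNReal.le_of_forall_pos_le_add fun ε hε _ => ?_) zero_le
  have h1 := h ε (by exact_mod_cast hε)
  rwa [ENNReal.ofReal_coe_nnreal, ← zero_add (ε : ℝ≥0∞)] at h1

theorem emp_line (a : ℕ) (t : ℤ) :
    ((Ico (0 : ℤ) a).filter fun s => s + t ∉ Ico (0 : ℤ) a).card ≤ t.natAbs := by
  have h1 : ((Ico (0 : ℤ) a).filter fun s => s + t ∉ Ico (0 : ℤ) a) ⊆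
      Ico 0 (-t) ∪ Ico (a - t) a := by
    intro s hs
    simp only [mem_filter, mem_Ico, mem_union] at hs ⊢
    omega
  have h2 := (card_le_card h1).trans (card_union_le _ _)
  rw [Int.card_Ico, Int.card_Ico] at h2
  omega

/-- the cells of the rectangle that leave it under a translation -/
theorem emp_bad {P : Fin 3 → Finset Pt} {N : ℕ} (h0 : (P 0).card ≤ N) (h1 : (P 1).card ≤ N)
    (d : Z2) :
    ((rect P).filter fun y => y + d ∉ rect P).card ≤ (d.1.natAbs + d.2.natAbs) * N := by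
  have h2 : ((rect P).filter fun y => y + d ∉ rect P) ⊆
      ((Ico (0 : ℤ) (P 0).card).filter fun s => s + d.1 ∉ Ico (0 : ℤ) (P 0).card) ×ˢ
          Ico (0 : ℤ) (P 1).card ∪
        Ico (0 : ℤ) (P 0).card ×ˢ
          ((Ico (0 : ℤ) (P 1).card).filter fun s => s + d.2 ∉ Ico (0 : ℤ) (P 1).card) := by
    intro y hy
    simp only [rect, mem_filter, mem_product, mem_Ico, mem_union, Prod.fst_add,
      Prod.snd_add] at hy ⊢
    omega
  have h3 := (card_le_card h2).trans (card_union_le _ _)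
  rw [card_product, card_product, Int.card_Ico, Int.card_Ico, sub_zero, sub_zero,
    Int.toNat_natCast, Int.toNat_natCast] at h3
  have h4 := Nat.mul_le_mul (emp_line (P 0).card d.1) h1
  have h5 := Nat.mul_le_mul h0 (emp_line (P 1).card d.2)
  rw [mul_comm N] at h5
  rw [add_mul]
  exact h3.trans (add_le_add h4 h5)

theorem emp_rect_sub {P : Fin 3 → Finset Pt} {N : ℕ} (h0 : (P 0).card ≤ N) (h1 : (P 1).card ≤ N) :
    rect P ⊆ Ico (0 : ℤ) N ×ˢ Ico (0 : ℤ) N := by
  intro y hy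
  simp only [rect, mem_product, mem_Ico] at hy ⊢
  omega

theorem emp_small {N : ℕ → ℕ} (hN : ∀ n, n + 1 ≤ N n) {γ b : ℝ} (hγ : 0 < γ) (hb : 0 < b)
    (c : ℕ) : ∀ᶠ n in atTop, ((c * N n : ℕ) : ℝ) ≤ b * (γ * (N n : ℝ) ^ 2) := by
  obtain ⟨n0, hn0⟩ := exists_nat_ge ((c : ℝ) / (b * γ))
  filter_upwards [eventually_ge_atTop n0] with n hn
  have h1 : (n0 : ℝ) ≤ N n := by exact_mod_cast (hn.trans (Nat.le_succ n)).trans (hN n)
  have h2 : (c : ℝ) ≤ N n * (b * γ) := (div_le_iff₀ (mul_pos hb hγ)).1 (hn0.trans h1)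
  have h3 : (0 : ℝ) ≤ N n := Nat.cast_nonneg _
  push_cast
  nlinarith [mul_le_mul_of_nonneg_right h2 h3]

theorem emp_cub {x y : ℝ} {T : Finset (Fin 3 → Pt)} (h : Cub x T) (hy : y ≤ x) : Cub y T := by
  obtain ⟨f, h1, h2, h3⟩ := h
  exact ⟨f, h1, h2, hy.trans h3⟩

theorem emp_cont (i : Ix) : Continuous fun ω : KK => ω 0 i :=
  (continuous_apply i).comp (continuous_apply (0 : Z2))

theorem exists_measure {k : ℕ} {γ : ℝ} (hγ : 0 < γ) {N : ℕ → ℕ} {P : ℕ → Fin 3 → Finset Pt}
    {T : ℕ → Finset (Fin 3 → Pt)} {G : ℕ → Gal} {lab : ℕ → Lb → Pt}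
    {cell : ℕ → (Fin 3 → Pt) → Z2} (hN : ∀ n, n + 1 ≤ N n) (hT : ∀ n, TS k (N n) (P n) (T n))
    (hF : ∀ n, FinAx (N n) (P n) (T n) (G n) (lab n) (cell n))
    (hc : ∀ n, γ * (N n : ℝ) ^ 2 ≤ (T n).card)
    (hn : ∀ n : ℕ, ¬ Cub (1 / ((n : ℝ) + 1) * (N n : ℝ) ^ 2) (T n)) :
    ∃ μ : Measure KK, IsProbabilityMeasure μ ∧ (∀ w, MeasurePreserving (sh w) μ μ) ∧
      μ {ω | (gal ω).tp 0 = true} ≠ 0 ∧ ∫⁻ ω, FF ω ∂μ < ∞ ∧
      ∀ᵐ ω ∂μ, (∀ m, ω ∈ Lam (fun n => code (G n) (flag (T n) (cell n)))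
          (fun n => {x | InR (P n) x}) m) ∧
        ∀ m u0 : ℕ, ∃ u, u0 ≤ u ∧ ω 0 (9, m, 0, u) ≠ 1 := by
  classical
  have hNpos : ∀ n, (0 : ℝ) < N n := fun n => by
    exact_mod_cast lt_of_lt_of_le (Nat.succ_pos n) (hN n)
  have htp : ∀ n, γ * (N n : ℝ) ^ 2 ≤ ((rect (P n)).filter fun y => (G n).tp y = true).card := by
    intro n
    refine (hc n).trans (Nat.cast_le.2 (card_le_card_of_injOn (cell n) (fun τ hτ => ?_)
      fun τ hτ τ' hτ' e => (hF n).cell_inj τ hτ τ' hτ' e))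
    obtain ⟨h1, h2, -⟩ := (hF n).cell_tp τ hτ
    exact mem_coe.2 (mem_filter.2 ⟨h2, h1⟩)
  have hlow : ∀ n, γ * (N n : ℝ) ^ 2 ≤ (rect (P n)).card := fun n =>
    (htp n).trans (Nat.cast_le.2 (card_filter_le _ _))
  have hup : ∀ n, ((rect (P n)).card : ℝ) ≤ (N n : ℝ) ^ 2 := by
    intro n
    have h1 := card_le_card (emp_rect_sub ((hT n).card_le 0) ((hT n).card_le 1))
    rw [card_product, Int.card_Ico, sub_zero, Int.toNat_natCast, ← pow_two] at h1
    exact_mod_cast h1
  have hB : ∀ n, (0 : ℝ) < (rect (P n)).card := fun n =>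
    lt_of_lt_of_le (mul_pos hγ (pow_pos (hNpos n) 2)) (hlow n)
  have hU : ((hyperfilter ℕ : Ultrafilter ℕ) : Filter ℕ) ≤ atTop := Nat.hyperfilter_le_atTop
  obtain ⟨μ, hμ, hmp, hlim⟩ := emp (hyperfilter ℕ) (fun n => code (G n) (flag (T n) (cell n)))
    (fun n => rect (P n)) (Eventually.of_forall fun n => card_pos.1 (by exact_mod_cast hB n)) (by
      intro w
      refine Tendsto.mono_left ?_ hU
      refine tendsto_order.2 ⟨fun b hb => Eventually.of_forall fun n =>
        lt_of_lt_of_le hb (div_nonneg (Nat.cast_nonneg _) (Nat.cast_nonneg _)), fun b hb => ?_⟩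
      filter_upwards [emp_small hN hγ (half_pos hb) (w.1.natAbs + w.2.natAbs)] with n hn
      have h1 : ((rect (P n)).image (· + w)) \ rect (P n) ⊆
          ((rect (P n)).filter fun y => y + w ∉ rect (P n)).image (· + w) := by
        intro z hz
        obtain ⟨hz1, hz2⟩ := mem_sdiff.1 hz
        obtain ⟨y, hy, rfl⟩ := mem_image.1 hz1
        exact mem_image.2 ⟨y, mem_filter.2 ⟨hy, hz2⟩, rfl⟩
      have h2 := ((card_le_card h1).trans card_image_le).trans
        (emp_bad ((hT n).card_le 0) ((hT n).card_le 1) w)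
      refine lt_of_le_of_lt ?_ (half_lt_self hb)
      rw [div_le_iff₀ (hB n)]
      exact ((Nat.cast_le.2 h2).trans hn).trans
        (mul_le_mul_of_nonneg_left (hlow n) (half_pos hb).le))
  refine ⟨μ, hμ, hmp, ?_, ?_, ?_⟩
  · intro h0
    have hE : {ω : KK | (gal ω).tp 0 = true}ᶜ = {ω : KK | ω 0 (2, 0, 0, 0) ≠ 1} := by
      ext ω
      simp only [gal, db, Set.mem_compl_iff, Set.mem_ofPred_eq, decide_eq_true_eq, ne_eq]
    have h1 := emp_open (x := fun n y => sh y (code (G n) (flag (T n) (cell n)))) hB hlim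
      (isOpen_ne_fun (emp_cont (2, 0, 0, 0)) continuous_const (g := fun _ => (1 : EReal)))
      (b := 1 - γ) (Eventually.of_forall fun n =>
        ⟨(rect (P n)).filter fun y => ¬ (G n).tp y = true, fun y hy hv => ?_, ?_⟩)
    · have h2 : (1 : ℝ≥0∞) ≤ ENNReal.ofReal (1 - γ) := by
        rw [← measure_univ (μ := μ), ← Set.union_compl_self {ω : KK | (gal ω).tp 0 = true}]
        refine (measure_union_le _ _).trans ?_
        rw [h0, zero_add, hE]
        exact h1
      rw [ENNReal.one_le_ofReal] at h2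
      linarith
    · refine mem_filter.2 ⟨hy, fun ht => hv ?_⟩
      change eb ((G n).tp (y + 0)) = 1
      rw [add_zero, ht]
      exact if_pos rfl
    · have h2 := card_filter_add_card_filter_not (s := rect (P n)) fun y => (G n).tp y = true
      have h3 : (((rect (P n)).filter fun y => (G n).tp y = true).card : ℝ) +
          ((rect (P n)).filter fun y => ¬ (G n).tp y = true).card = (rect (P n)).card := by
        exact_mod_cast h2
      have h4 := mul_le_mul_of_nonneg_left (hup n) hγ.le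
      have h5 := htp n
      linarith
  · refine emp_lint (x := fun n y => sh y (code (G n) (flag (T n) (cell n)))) hB hlim
      (EReal.continuous_toENNReal.comp (emp_cont (1, 0, 0, 0))) (b := 300 / γ) (by positivity)
      fun n => ?_
    have h1 : ∀ y, FF (sh y (code (G n) (flag (T n) (cell n)))) = Fv (G n) y := by
      intro y
      change ((Fv (G n) (y + 0) : ℝ≥0∞) : EReal).toENNReal = _
      rw [add_zero, EReal.toENNReal_coe]
    have h2 : ∑ y ∈ rect (P n), (((G n).g y : ℕ) : ℝ≥0∞) ≤ 100 * (N n : ℝ≥0∞) ^ 2 := by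
      exact_mod_cast (hF n).sum_g
    have h3 : ENNReal.ofReal (300 * (N n : ℝ) ^ 2) = 100 * (N n : ℝ≥0∞) ^ 2 +
        100 * (N n : ℝ≥0∞) ^ 2 + 100 * (N n : ℝ≥0∞) ^ 2 := by
      rw [ENNReal.ofReal_mul (by norm_num), ENNReal.ofReal_pow (Nat.cast_nonneg _),
        ENNReal.ofReal_natCast, ENNReal.ofReal_ofNat]
      ring
    have h4 : 300 * (N n : ℝ) ^ 2 ≤ 300 / γ * (rect (P n)).card := by
      rw [div_mul_eq_mul_div, le_div_iff₀ hγ]
      have := hlow n
      linarith
    refine le_trans ?_ (ENNReal.ofReal_le_ofReal h4)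
    change ∑ y ∈ rect (P n), FF (sh y (code (G n) (flag (T n) (cell n)))) ≤ _
    simp only [h1, Fv]
    rw [sum_add_distrib, sum_add_distrib, h3]
    exact add_le_add (add_le_add h2 (hF n).sum_cr) (hF n).sum_disp
  · refine Eventually.and (ae_all_iff.2 fun m => ?_)
      (ae_all_iff.2 fun m => ae_all_iff.2 fun u0 => ?_)
    · refine emp_zero fun b hb => ?_
      refine emp_open (x := fun n y => sh y (code (G n) (flag (T n) (cell n)))) hB hlim
        isClosed_closure.isOpen_compl (hU ?_)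
      filter_upwards [emp_small hN hγ hb (4 * m + 2)] with n hn
      refine ⟨((rect (P n)).filter fun y => y + (-((m : ℤ) + 1), -((m : ℤ) + 1)) ∉ rect (P n)) ∪
        (rect (P n)).filter fun y => y + ((m : ℤ), (m : ℤ)) ∉ rect (P n), fun y hy hv => ?_, ?_⟩
      · by_contra hcon
        refine hv (subset_closure ⟨n, y, fun z hz => ?_, rfl⟩)
        simp only [mem_union, mem_filter, hy, true_and, not_or, not_not] at hcon
        simp only [rect, mem_product, mem_Ico, Prod.fst_add, Prod.snd_add] at hcon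
        rw [mem_box] at hz
        simp only [Set.mem_ofPred_eq, InR]
        omega
      · have h1 := emp_bad ((hT n).card_le 0) ((hT n).card_le 1)
          (-((m : ℤ) + 1), -((m : ℤ) + 1))
        have h2 := emp_bad ((hT n).card_le 0) ((hT n).card_le 1) ((m : ℤ), (m : ℤ))
        have h3 := (card_union_le _ _).trans (add_le_add h1 h2)
        have h4 : (-((m : ℤ) + 1)).natAbs + (-((m : ℤ) + 1)).natAbs +
            ((m : ℤ).natAbs + (m : ℤ).natAbs) = 4 * m + 2 := by omega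
        rw [← add_mul, h4] at h3
        exact ((Nat.cast_le.2 h3).trans hn).trans (mul_le_mul_of_nonneg_left (hlow n) hb.le)
    · refine emp_zero fun b hb => ?_
      obtain ⟨η, hη, u1, hg⟩ := glue k (b * γ) (1 / ((m : ℝ) + 1)) (mul_pos hb hγ)
        (by positivity)
      refine le_trans (measure_mono (t := {ω : KK | ω 0 (9, m, 0, max u0 u1) ≠ 0}) ?_) ?_
      · intro ω hω h0
        refine hω ⟨max u0 u1, le_max_left _ _, ?_⟩
        rw [h0]
        exact zero_ne_one
      refine emp_open (x := fun n y => sh y (code (G n) (flag (T n) (cell n)))) hB hlim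
        (isOpen_ne_fun (emp_cont (9, m, 0, max u0 u1)) continuous_const) (hU ?_)
      have hsm : ∀ᶠ n : ℕ in atTop, 1 / ((n : ℝ) + 1) ≤ η :=
        (tendsto_one_div_add_atTop_nhds_zero_nat (𝕜 := ℝ)).eventually (ge_mem_nhds hη)
      filter_upwards [hsm, eventually_ge_atTop (max u0 u1)] with n hn1 hn2
      have hsub := emp_rect_sub ((hT n).card_le 0) ((hT n).card_le 1)
      have h1 := mt (hg (max u0 u1) (N n) (le_max_right _ _)
        ((hn2.trans (Nat.le_succ n)).trans (hN n)) (P n) (T n) (hT n) (cell n) (hF n).cell_inj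
        (fun τ hτ => hsub ((hF n).cell_tp τ hτ).2.1) (hF n).vis)
        fun h => hn n (emp_cub h (mul_le_mul_of_nonneg_right hn1 (sq_nonneg _)))
      refine ⟨_, fun y hy hv => ?_, (not_le.1 h1).le.trans ?_⟩
      · refine mem_filter.2 ⟨hsub hy, ?_⟩
        by_contra hcon
        refine hv ?_
        change eb (flag (T n) (cell n) (y + 0) m (max u0 u1)) = 0
        rw [add_zero, flag, decide_eq_false hcon]
        exact if_neg Bool.false_ne_true
      · rw [mul_assoc]
        exact mul_le_mul_of_nonneg_left (hlow n) hb.le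

end ECub.N
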