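import Pool.Agent.P.MP_029dcd_co.F.LayE

/-! Layer N: choice of an ergodic component, restriction to an invariant set. -/

set_option autoImplicit false

namespace ECub.N

open CubicStab MeasureTheory Filter Topology Finset
open scoped ENNReal

theorem exists_erg (D : Dyn) (E : Set D.Ω) (hE : MeasurableSet E) (hpos : D.μ E ≠ 0)
    (F : D.Ω → ℝ≥0∞) (hF : Measurable F) (hi : ∫⁻ ω, F ω ∂D.μ < ∞) (p : D.Ω → Prop)
    (hp : ∀ᵐ ω ∂D.μ, p ω) :
    ∃ ν : Measure D.Ω, IsProbabilityMeasure ν ∧ (∀ w, MeasurePreserving (D.T w) ν ν) ∧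
      ErgM D.T ν ∧ ν E ≠ 0 ∧ ∫⁻ ω, F ω ∂ν < ∞ ∧ ∀ᵐ ω ∂ν, p ω := by
  obtain ⟨κ, hκ, hb, he⟩ := erg_dec D
  have hm : AEMeasurable κ D.μ := κ.measurable.aemeasurable
  have h1 : ∀ᵐ a ∂D.μ, ∀ᵐ ω ∂κ a, p ω := Measure.ae_ae_of_ae_bind hm (by rw [hb]; exact hp)
  have h2 : ∀ᵐ a ∂D.μ, ∫⁻ ω, F ω ∂κ a < ∞ := by
    refine ae_lt_top (hF.lintegral_kernel (κ := κ)) ?_
    rw [← Measure.lintegral_bind hm hF.aemeasurable, hb]
    exact hi.ne
  have h3 : ¬ ∀ᵐ a ∂D.μ, κ a E = 0 := by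
    intro h
    apply hpos
    rw [← hb, Measure.bind_apply hE hm]
    exact lintegral_eq_zero_of_ae_eq_zero h
  by_contra hcon
  apply h3
  filter_upwards [he, h1, h2] with a ha hb1 hb2
  by_contra h0
  exact hcon ⟨κ a, hκ.isProbabilityMeasure a, ha.1, ha.2, h0, hb2, hb1⟩

theorem exists_restrict (D : Dyn) (hD : D.Erg) (p : D.Ω → Prop) (hp : ∀ᵐ ω ∂D.μ, p ω) :
    ∃ (D' : Dyn) (π : D'.Ω → D.Ω), D'.Fac D π ∧ D'.Erg ∧ ∀ ω, p (π ω) := by
  obtain ⟨Z, hZ, hinv, h0, hpZ⟩ := exists_inv_conull D p hp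
  have hemb : MeasurableEmbedding (Subtype.val : Z → D.Ω) := MeasurableEmbedding.subtype_coe hZ
  have hmem : ∀ w (ω : D.Ω), ω ∈ Z ↔ D.T w ω ∈ Z := fun w ω => by
    conv_lhs => rw [← hinv w]
    rfl
  have hmap : (D.μ.comap (Subtype.val : Z → D.Ω)).map Subtype.val = D.μ := by
    rw [hemb.map_comap, Subtype.range_coe]
    exact Measure.restrict_eq_self_of_ae_mem h0
  have hmp : MeasurePreserving (Subtype.val : Z → D.Ω) (D.μ.comap Subtype.val) D.μ :=
    ⟨measurable_subtype_coe, hmap⟩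
  have hprob : IsProbabilityMeasure (D.μ.comap (Subtype.val : Z → D.Ω)) := by
    constructor
    have := hmp.measure_preimage (s := Set.univ) MeasurableSet.univ.nullMeasurableSet
    simpa using this
  let T' : Z2 → Z → Z := fun w ω => ⟨D.T w ω, (hmem w ω).1 ω.2⟩
  have hT' : ∀ w, Measurable (T' w) := fun w =>
    ((D.mp w).measurable.comp measurable_subtype_coe).subtype_mk
  have himg : ∀ w (E : Set Z), Subtype.val '' (T' w ⁻¹' E) = D.T w ⁻¹' (Subtype.val '' E) := by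
    intro w E
    ext x
    constructor
    · rintro ⟨ω, hω, rfl⟩
      exact ⟨T' w ω, hω, rfl⟩
    · rintro ⟨ω, hω, e⟩
      have hx : x ∈ Z := (hmem w x).2 (e ▸ ω.2)
      refine ⟨⟨x, hx⟩, ?_, rfl⟩
      have : T' w ⟨x, hx⟩ = ω := Subtype.ext e.symm
      simpa [Set.mem_preimage, this] using hω
  have hmp' : ∀ w, MeasurePreserving (T' w) (D.μ.comap Subtype.val) (D.μ.comap Subtype.val) := by
    intro w
    refine ⟨hT' w, ?_⟩
    ext E hE
    rw [Measure.map_apply (hT' w) hE, hemb.comap_apply, hemb.comap_apply, himg]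
    exact (D.mp w).measure_preimage (hemb.measurableSet_image.2 hE).nullMeasurableSet
  let D' : Dyn :=
    { Ω := Z
      sb := hZ.standardBorel
      μ := D.μ.comap Subtype.val
      prob := hprob
      T := T'
      T_zero := fun ω => Subtype.ext (D.T_zero ω)
      T_add := fun a b ω => Subtype.ext (D.T_add a b ω)
      mp := hmp' }
  refine ⟨D', Subtype.val, ⟨hmp, fun _ _ => rfl⟩, ?_, fun ω => hpZ _ ω.2⟩
  intro E hE hEi
  have hE' : MeasurableSet (Subtype.val '' (E : Set Z)) := hemb.measurableSet_image.2 hE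
  rcases hD _ hE' (fun w => by
    have := himg w E
    rw [← this]
    exact congrArg _ (hEi w)) with h | h
  · left
    exact (hemb.comap_apply D.μ E).trans h
  · right
    refine (hemb.comap_apply D.μ Eᶜ).trans (measure_mono_null ?_ h)
    rintro x ⟨ω, hω, rfl⟩ ⟨ω', hω', e⟩
    exact hω (Subtype.ext e ▸ hω')

end ECub.N
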