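import Pool.Agent.P.MP_029dcd_co.F.N.Loc
import Pool.Agent.P.MP_029dcd_co.F.N.Conv
import Pool.Agent.P.MP_029dcd_co.F.N.Emp
import Pool.Agent.P.MP_029dcd_co.F.N.Erg
import Pool.Agent.P.MP_029dcd_co.F.LayD

/-! Layer N: assembly. -/

set_option autoImplicit false

namespace ECub.N

open CubicStab MeasureTheory Filter Topology Finset
open scoped ENNReal

theorem measurable_sh (w : Z2) : Measurable (sh w : KK → KK) :=
  measurable_pi_lambda _ fun x => measurable_pi_apply (w + x)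

theorem continuous_sh (w : Z2) : Continuous (sh w : KK → KK) :=
  continuous_pi fun x => continuous_apply (w + x)

theorem sh_sh (a b : Z2) (x : KK) : sh a (sh b x) = sh (b + a) x := by
  funext w
  simp only [sh, add_assoc]

/-- the shift system of an invariant measure on the code space -/
noncomputable def dynK (μ : Measure KK) (hp : IsProbabilityMeasure μ)
    (hm : ∀ w, MeasurePreserving (sh w) μ μ) : Dyn where
  Ω := KK
  μ := μ
  prob := hp
  T := sh
  T_zero := fun ω => by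
    funext w
    simp only [sh, zero_add]
  T_add := fun a b ω => by rw [sh_sh, add_comm]
  mp := hm

theorem exists_ergK (μ : Measure KK) (hμ : IsProbabilityMeasure μ)
    (hm : ∀ w, MeasurePreserving (sh w) μ μ) (E : Set KK) (hE : MeasurableSet E)
    (hpos : μ E ≠ 0) (hi : ∫⁻ ω, FF ω ∂μ < ∞) (p : KK → Prop) (hp : ∀ᵐ ω ∂μ, p ω) :
    ∃ ν : Measure KK, IsProbabilityMeasure ν ∧ (∀ w, MeasurePreserving (sh w) ν ν) ∧
      ErgM sh ν ∧ ν E ≠ 0 ∧ ∫⁻ ω, FF ω ∂ν < ∞ ∧ ∀ᵐ ω ∂ν, p ω :=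
  exists_erg (dynK μ hμ hm) E hE hpos FF measurable_FF hi p hp

section det

variable {k : ℕ} {N : ℕ → ℕ} {P : ℕ → Fin 3 → Finset Pt} {T : ℕ → Finset (Fin 3 → Pt)}
  {G : ℕ → Gal} {lab : ℕ → Lb → Pt} {cell : ℕ → (Fin 3 → Pt) → Z2}
  {τ K C : ℝ} {A0 : ℕ} {ε : ℝ} {n0 : ℕ}

/-- the properties of a generic point of the code space -/
structure Gen (τ K : ℝ) (ω : KK) : Prop where
  fin : ∀ w, FF (sh w ω) ≠ ∞
  fl : ∀ m u0 : ℕ, ∃ u, u0 ≤ u ∧ ω 0 (9, m, 0, u) ≠ 1
  b1 : BoxLim (fun w => if (gal ω).tp w = true then (1 : ℝ) else 0) τ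
  b2 : BoxLim (fun w => ((gal ω).g w : ℝ)) K

theorem lim_gen (hT : ∀ n, TS k (N n) (P n) (T n)) (hS : ∀ n, Std (P n))
    (hF : ∀ n, FinAx (N n) (P n) (T n) (G n) (lab n) (cell n)) (hε : 0 < ε)
    (hG : ∀ n, Geo (G n) {x | InR (P n) x} τ K C A0 ε n0) {ω : KK} (hω : Gen τ K ω)
    {n : ℕ → ℕ} {y : ℕ → Z2} (hU : ∀ w, ∀ᶠ j in atTop, InR (P (n j)) (y j + w))
    (hc : Tendsto (fun j => sh (y j) (code (G (n j)) (flag (T (n j)) (cell (n j))))) atTop
      (𝓝 ω)) :
    (∃ l, Good l ω) ∧ ∃ c : ℕ → ℝ, (∀ j, 0 < c j) ∧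
      Lim (fun j => nrm (G (n j)) (y j) (c j)) (gal ω) := by
  have hD : ∀ c : ℕ → ℝ, DLim (fun j => nrm (G (n j)) (y j) (c j)) (gal ω) := fun c =>
    dlim_of_code hc hω.fin (fun j w i h => ((hF (n j)).tp_can w h i).1) c
  have hg : ∃ l, Good l ω := by
    refine good_of_code (U := fun j => {x | y j + x ∈ {x | InR (P (n j)) x}}) hc (hD _) hU
      (fun j => (hG (n j)).shift (shift_nrm _ _ one_pos)) ?_
    filter_upwards [cr_of_boxLim hω.b1 hω.b2 A0 hε 1 one_pos] with u hu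
    refine hu 0 ?_ u (by simp) (by simp)
    simp [mem_box]
  exact ⟨hg, lim_of_code (U := fun j => {x | InR (P (n j)) (y j + x)}) hc hD
    (fun j c hc0 => loc_of_fin (hT _) (hS _) (hF _) (shift_nrm _ _ hc0)) hU hg⟩

theorem ax_gen (hT : ∀ n, TS k (N n) (P n) (T n)) (hS : ∀ n, Std (P n))
    (hF : ∀ n, FinAx (N n) (P n) (T n) (G n) (lab n) (cell n)) (hε : 0 < ε)
    (hG : ∀ n, Geo (G n) {x | InR (P n) x} τ K C A0 ε n0) {ω : KK} (hω : Gen τ K ω)
    (hl : ∀ m, ω ∈ Lam (fun n => code (G n) (flag (T n) (cell n))) (fun n => {x | InR (P n) x}) m) :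
    (gal ω).Ax k C ∧ (((gal ω).g 0 : ℝ≥0∞) ≤ FF ω ∧ (gal ω).ncr 0 ≤ FF ω ∧
      ∑' j : ℕ, (gal ω).disp (0, j) ≤ FF ω) ∧
      ∀ w, Gen τ K (sh w ω) → (gal ω).Shift (gal (sh w ω)) w := by
  classical
  obtain ⟨n, y, hU, hc⟩ := exists_appr hl
  obtain ⟨hg, c, hc0, hlim⟩ := lim_gen hT hS hF hε hG hω hU hc
  have hnz : ∃ w, (gal ω).v w ≠ 0 := (good_lv hg).2
  have hax : (gal ω).Ax k C := by
    refine ax_of_lim (U := fun j => {x | InR (P (n j)) (y j + x)}) hlim
      (fun j => loc_of_fin (hT _) (hS _) (hF _) (shift_nrm _ _ (hc0 j))) hU hε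
      (fun j => (hG (n j)).shift (shift_nrm _ _ (hc0 j))) hω.b1 hω.b2 hnz ?_
    intro m u0
    obtain ⟨u, hu, hfl⟩ := hω.fl m u0
    refine ⟨u, hu, ?_⟩
    filter_upwards [flag_of_code hc hfl] with j hj
    rw [trip_shift (hF _) (shift_nrm _ _ (hc0 j))]
    simpa [flag] using hj
  refine ⟨hax, ?_, ?_⟩
  · refine int_of_lim hlim.toDLim ?_
    refine (F_of_code hc).congr fun j => ?_
    rw [Fv_shift (shift_nrm _ _ (hc0 j)), add_zero]
  · intro w hw
    have hc' : Tendsto (fun j => sh (y j + w) (code (G (n j)) (flag (T (n j)) (cell (n j)))))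
        atTop (𝓝 (sh w ω)) := by
      refine (((continuous_sh w).tendsto ω).comp hc).congr fun j => ?_
      simp only [Function.comp, sh_sh]
    have hU' : ∀ x, ∀ᶠ j in atTop, InR (P (n j)) (y j + w + x) := fun x => by
      simp only [add_assoc]
      exact hU (w + x)
    obtain ⟨hg', c', hc0', hlim'⟩ := lim_gen hT hS hF hε hG hw hU' hc'
    refine shift_gal ω w (geo_of_lim hlim hlim'
      (fun j => shift_nrm_nrm _ _ _ (hc0 j) (hc0' j)) ?_ (good_lv hg').2)
    obtain ⟨x, hx⟩ := hnz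
    by_cases h0 : (gal ω).v w = 0
    · exact ⟨x, by rwa [h0]⟩
    · exact ⟨0, by rw [hax.v_zero]; exact fun h => h0 h.symm⟩

theorem g_le_gen (hF : ∀ n, FinAx (N n) (P n) (T n) (G n) (lab n) (cell n)) {ω : KK}
    (hfin : ∀ w, FF (sh w ω) ≠ ∞)
    (hl : ∀ m, ω ∈ Lam (fun n => code (G n) (flag (T n) (cell n))) (fun n => {x | InR (P n) x}) m) :
    ((gal ω).g 0 : ℝ≥0∞) ≤ FF ω := by
  obtain ⟨n, y, -, hc⟩ := exists_appr hl
  refine (int_of_lim (dlim_of_code hc hfin (fun j w i h => ((hF (n j)).tp_can w h i).1)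
    fun _ => 1) ?_).1
  refine (F_of_code hc).congr fun j => ?_
  rw [Fv_shift (shift_nrm _ _ one_pos), add_zero]

end det

theorem layerN (h : ¬ ThmI) :
    ∃ S : Sys, S.toDyn.Erg ∧ S.μ {ω | (S.Γ ω).tp 0 = true} ≠ 0 := by
  classical
  unfold ThmI at h
  push Not at h
  obtain ⟨k, γ, hγ, h⟩ := h
  have h' : ∀ n : ℕ, ∃ N, n + 1 ≤ N ∧ ∃ (P : Fin 3 → Finset Pt) (T : Finset (Fin 3 → Pt)),
      TS k N P T ∧ Std P ∧ γ * (N : ℝ) ^ 2 ≤ T.card ∧
        ¬ Cub (1 / ((n : ℝ) + 1) * (N : ℝ) ^ 2) T :=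
    fun n => h _ (by positivity) (n + 1)
  choose N hN P T hT hS hc hn using h'
  obtain ⟨GG, lab, cell, hfin, hgeo⟩ := fin_geo
  have hF : ∀ n, FinAx (N n) (P n) (T n) (GG (P n) (T n)) (lab (P n)) (cell (P n)) :=
    fun n => hfin k _ _ _ (hT n) (hS n)
  obtain ⟨μ, hμ, hinv, htp, hint, hae⟩ := exists_measure hγ hN hT hF hc hn
  have hE : MeasurableSet {ω : KK | (gal ω).tp 0 = true} :=
    galMeas.tp 0 (measurableSet_singleton true)
  obtain ⟨ν, hν, hinv', herg, htp', hint', hae'⟩ :=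
    exists_ergK μ hμ hinv _ hE htp hint _ hae
  let D : Dyn := dynK ν hν hinv'
  have hfinν : ∀ᵐ ω ∂ν, ∀ w, FF (sh w ω) ≠ ∞ := by
    rw [ae_all_iff]
    intro w
    have h0 : ∀ᵐ ω ∂ν, FF ω < ∞ := ae_lt_top measurable_FF hint'.ne
    exact ((hinv' w).quasiMeasurePreserving.ae h0).mono fun ω hω => hω.ne
  have hg : Integrable (fun ω : KK => ((gal ω).g 0 : ℝ)) ν := by
    have hm : Measurable fun ω : KK => ((gal ω).g 0 : ℝ) :=
      measurable_from_top.comp (galMeas.g 0)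
    refine ⟨hm.aestronglyMeasurable, ?_⟩
    refine lt_of_le_of_lt (lintegral_mono_ae ?_) hint'
    filter_upwards [hae', hfinν] with ω h1 h2
    have := g_le_gen hF h2 h1.1
    simpa [Real.enorm_natCast] using this
  have ht : Integrable (fun ω : KK => if (gal ω).tp 0 = true then (1 : ℝ) else 0) ν := by
    have : (fun ω : KK => if (gal ω).tp 0 = true then (1 : ℝ) else 0) =
        Set.indicator {ω : KK | (gal ω).tp 0 = true} fun _ => 1 := by
      funext ω
      simp [Set.indicator]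
    rw [this]
    exact (integrable_const _).indicator hE
  set τ : ℝ := ∫ ω, (if (gal ω).tp 0 = true then (1 : ℝ) else 0) ∂ν with hτ
  have hτ0 : 0 < τ := by
    have : (fun ω : KK => if (gal ω).tp 0 = true then (1 : ℝ) else 0) =
        Set.indicator {ω : KK | (gal ω).tp 0 = true} fun _ => 1 := by
      funext ω
      simp [Set.indicator]
    rw [hτ, this, integral_indicator_const _ hE, smul_eq_mul, mul_one]
    exact ENNReal.toReal_pos htp' (measure_ne_top _ _)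
  set K : ℝ := ∫ ω, ((gal ω).g 0 : ℝ) ∂ν with hK
  obtain ⟨C, A0, ε, n0, hε, hq⟩ := hgeo τ hτ0 K
  have hG : ∀ n, Geo (GG (P n) (T n)) {x | InR (P n) x} τ K C A0 ε n0 :=
    fun n y m hm hx hcr => hq k _ _ _ (hT n) (hS n) y m hm hx hcr
  have hgen : ∀ᵐ ω ∂ν, Gen τ K ω ∧ ∀ m, ω ∈ Lam
      (fun n => code (GG (P n) (T n)) (flag (T n) (cell (P n)))) (fun n => {x | InR (P n) x}) m := by
    have e1 := et2_erg ν sh D.T_zero D.T_add hinv' herg _ ht
    have e2 := et2_erg ν sh D.T_zero D.T_add hinv' herg _ hg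
    filter_upwards [hae', hfinν, e1, e2] with ω h1 h2 h3 h4
    refine ⟨⟨h2, h1.2, ?_, ?_⟩, h1.1⟩
    · rw [← hτ] at h3
      have e : ∀ w, (gal (sh w ω)).tp 0 = (gal ω).tp w := fun w => by
        simp only [gal, sh, add_zero]
      simpa only [e] using h3
    · rw [← hK] at h4
      simpa only [gal, sh, add_zero] using h4
  obtain ⟨D', π, hπ, herg', hall⟩ := exists_restrict D herg _ hgen
  have hm : Measurable π := hπ.mp.measurable
  refine ⟨{ toDyn := D', k := k, C := C, Γ := fun ω => gal (π ω),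
            meas := ⟨fun w => (galMeas.g w).comp hm, fun l => (galMeas.fam l).comp hm,
              fun l => (galMeas.can l).comp hm, fun l l' => (galMeas.same l l').comp hm,
              fun w j j' => (galMeas.cr w j j').comp hm, fun w => (galMeas.tp w).comp hm,
              fun w i => (galMeas.tl w i).comp hm, fun l => (galMeas.t l).comp hm,
              fun l => (galMeas.s l).comp hm, fun w => (galMeas.v w).comp hm⟩,
            shift := fun ω w => ?_,
            ax := fun ω => (ax_gen hT hS hF hε hG (hall ω).1 (hall ω).2).1,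
            int := ⟨fun ω => FF (π ω), measurable_FF.comp hm,
              lt_of_le_of_lt (hπ.mp.lintegral_comp measurable_FF).le hint',
              fun ω => (ax_gen hT hS hF hε hG (hall ω).1 (hall ω).2).2.1⟩ }, herg', ?_⟩
  · have h1 := (hall (D'.T w ω)).1
    rw [hπ.comm] at h1 ⊢
    exact (ax_gen hT hS hF hε hG (hall ω).1 (hall ω).2).2.2 w h1
  · have := hπ.mp.measure_preimage hE.nullMeasurableSet
    exact fun h0 => htp' (this.symm.trans h0)

end ECub.N
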