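import Pool.Agent.P.MP_029dcd_co.F.Defs

/-! Layer N: definitions (local axioms, limits of galaxies, the code space). -/

set_option autoImplicit false

namespace ECub.N

open CubicStab MeasureTheory Filter Topology Finset
open scoped ENNReal

/-- `G` seen from the cell `y`, lengths multiplied by `c` -/
def nrm (G : Gal) (y : Z2) (c : ℝ) : Gal where
  g := fun x => G.g (y + x)
  fam := fun l => G.fam (y + l.1, l.2)
  can := fun l => G.can (y + l.1, l.2)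
  same := fun l l' => G.same (y + l.1, l.2) (y + l'.1, l'.2)
  cr := fun x j j' => G.cr (y + x) j j'
  tp := fun x => G.tp (y + x)
  tl := fun x i => G.tl (y + x) i
  t := fun l => G.t (y + l.1, l.2)
  s := fun l => c * (G.s (y + l.1, l.2) + G.t (y + l.1, l.2) * (G.v y).1 - (G.v y).2)
  v := fun x => c • (G.v (y + x) - G.v y)

/-- the quantity whose mean is bounded -/
noncomputable def Fv (G : Gal) (w : Z2) : ℝ≥0∞ :=
  (G.g w : ℝ≥0∞) + G.ncr w + ∑' j : ℕ, G.disp (w, j)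

/-- the axioms of a finite configuration that are invariant under translation and scaling;
`U` is the set of interior cells and `r` gives the true lines -/
structure Loc (k : ℕ) (H : Gal) (r : Lb → Pt) (U : Set Z2) : Prop where
  same_iff : ∀ l l', H.valid l → H.valid l' → (H.same l l' = true ↔ r l = r l')
  same_cell : ∀ w j j', H.valid (w, j) → H.valid (w, j') → H.same (w, j) (w, j') = true → j = j'
  same_fam : H.LineC H.fam
  same_t : H.LineC H.t
  same_s : H.LineC H.s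
  slope : ∀ l, H.valid l → |H.t l - ctr (H.fam l)| ≤ 1 / 100
  can_uniq : ∀ i l l', H.Can i l → H.Can i l' → H.same l l' = true → idx i l.1 = idx i l'.1 →
    l = l'
  cr_valid : ∀ w j j', H.cr w j j' = true → H.valid (w, j) ∧ H.valid (w, j') ∧ j ≠ j'
  cr_symm : ∀ w j j', H.cr w j j' = true → H.cr w j' j = true
  cr_uniq : ∀ w j j' w' m m', H.cr w j j' = true → H.cr w' m m' = true →
    H.same (w, j) (w', m) = true → H.same (w, j') (w', m') = true → w = w'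
  tp_can : ∀ w, H.tp w = true → ∀ i, H.Can i (H.tlab w i)
  tp_cr : ∀ w, H.tp w = true → ∀ i i', i ≠ i' → H.cr w (H.tl w i) (H.tl w i') = true
  tp_on : ∀ w, H.tp w = true → ∀ i,
    (H.v w).2 = H.t (H.tlab w i) * (H.v w).1 + H.s (H.tlab w i)
  v_zero : H.v 0 = 0
  cone1 : ∀ w, w ∈ U → w + (1, 0) ∈ U →
    |((H.v (w + (1, 0))).2 - (H.v w).2) - ((H.v w).1 - (H.v (w + (1, 0))).1)|
      ≤ 1 / 100 * ((H.v w).1 - (H.v (w + (1, 0))).1)
  cone2 : ∀ w, w ∈ U → w + (0, 1) ∈ U →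
    |((H.v (w + (0, 1))).2 - (H.v w).2) - ((H.v (w + (0, 1))).1 - (H.v w).1)|
      ≤ 1 / 100 * ((H.v (w + (0, 1))).1 - (H.v w).1)
  near : ∀ l, H.valid l → l.1 ∈ U →
    |H.t l * (H.v l.1).1 + H.s l - (H.v l.1).2| ≤ 6 * H.cs l.1
  near_cr : ∀ w j j', w ∈ U → H.cr w j j' = true →
    |(H.s (w, j') - H.s (w, j)) - (H.t (w, j) - H.t (w, j')) * (H.v w).1|
      ≤ 2 * H.cs w * |H.t (w, j) - H.t (w, j')|
  can_loc : ∀ l, H.valid l → ∀ (w : Z2) (u : ℕ), (∀ x ∈ box w (u + 1), x ∈ U) →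
    100 * |H.t l * (H.v w).1 + H.s l - (H.v w).2| < H.sepr w u →
    ∃ l', H.Can (H.fam l) l' ∧ H.same l l' = true ∧
      idx (H.fam l) l'.1 = idx (H.fam l) w ∧ l'.1 ∈ box w (u + 1)
  cr_loc : ∀ l l', H.valid l → H.valid l' → H.t l ≠ H.t l' → ∀ z : ℝ × ℝ,
    H.t l * z.1 + H.s l = z.2 → H.t l' * z.1 + H.s l' = z.2 →
    ∀ (w : Z2) (u : ℕ), (∀ x ∈ box w (u + 1), x ∈ U) → 100 * ‖z - H.v w‖ < H.sepr w u →
    ∃ w' ∈ box w (u + 1), ∃ j j', H.cr w' j j' = true ∧ H.same l (w', j) = true ∧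
      H.same l' (w', j') = true
  inj : ∀ l l', H.valid l → H.valid l' → (r l).1 = (r l').1 → r l = r l'
  few : ∀ (z : Pt) (S : Finset Pt), (∀ p ∈ S, ∃ l, H.valid l ∧ p = r l) →
    (∀ p ∈ S, On p z) → S.card ≤ k
  col : ∀ w, H.tp w = true → ∃ z, ∀ i, On (r (H.tlab w i)) z
  one : ∀ w w', H.tp w = true → H.tp w' = true → ∀ z,
    (∀ i, On (r (H.tlab w i)) z) → (∀ i, On (r (H.tlab w' i)) z) → w = w'

/-- count regularity gives quasi-symmetry inside `U` -/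
def Geo (H : Gal) (U : Set Z2) (τ K C : ℝ) (A0 : ℕ) (ε : ℝ) (n0 : ℕ) : Prop :=
  ∀ (y : Z2) (n : ℕ), n0 ≤ n → (∀ x ∈ box y (A0 * n), x ∈ U) →
    H.CR y (A0 * n) τ K (ε * (n : ℝ) ^ 2) →
    H.QS y n C ∧ H.v (y + ((n : ℤ), (n : ℤ))) ≠ H.v (y - ((n : ℤ), (n : ℤ)))

/-- convergence of the discrete data -/
structure DLim (H : ℕ → Gal) (Γ : Gal) : Prop where
  g : ∀ w, ∀ᶠ n in atTop, (H n).g w = Γ.g w
  fam : ∀ l, ∀ᶠ n in atTop, (H n).fam l = Γ.fam l
  can : ∀ l, ∀ᶠ n in atTop, (H n).can l = Γ.can l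
  same : ∀ l l', ∀ᶠ n in atTop, (H n).same l l' = Γ.same l l'
  cr : ∀ w j j', ∀ᶠ n in atTop, (H n).cr w j j' = Γ.cr w j j'
  tp : ∀ w, ∀ᶠ n in atTop, (H n).tp w = Γ.tp w
  tl : ∀ w, Γ.tp w = true → ∀ i, ∀ᶠ n in atTop, (H n).tl w i = Γ.tl w i

/-- convergence of galaxies -/
structure Lim (H : ℕ → Gal) (Γ : Gal) : Prop extends DLim H Γ where
  t : ∀ l, Γ.valid l → Tendsto (fun n => (H n).t l) atTop (𝓝 (Γ.t l))
  s : ∀ l, Γ.valid l → Tendsto (fun n => (H n).s l) atTop (𝓝 (Γ.s l))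
  v : ∀ w, Tendsto (fun n => (H n).v w) atTop (𝓝 (Γ.v w))

/-! ### The code space -/

abbrev Ix := ℕ × ℕ × Z2 × ℕ
abbrev Y := Ix → EReal
abbrev KK := Z2 → Y

/-- code of a truth value -/
noncomputable def eb (b : Bool) : EReal := if b = true then 1 else 0
/-- code of a natural number -/
noncomputable def en (n : ℕ) : EReal := ((n : ℝ) : EReal)
open Classical in
/-- decoding of a truth value -/
noncomputable def db (a : EReal) : Bool := decide (a = 1)
/-- decoding of a natural number -/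
noncomputable def dn (a : EReal) : ℕ := ⌊a.toReal⌋₊

/-- the length scale of the box of radius `l` around `y` -/
noncomputable def DD (G : Gal) (y : Z2) (l : ℕ) : ℝ :=
  ‖G.v (y + ((l : ℤ), (l : ℤ))) - G.v (y - ((l : ℤ), (l : ℤ)))‖

/-- the data of `G` relative to the cell `y`; `φ` are additional flags -/
noncomputable def code (G : Gal) (φ : Z2 → ℕ → ℕ → Bool) (y : Z2) : Y
  | (0, _, _, _) => en (G.g y)
  | (1, _, _, _) => ((Fv G y : ℝ≥0∞) : EReal)
  | (2, _, _, _) => eb (G.tp y)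
  | (3, a, _, _) => en (G.tl y (Fin.ofNat 3 a))
  | (4, a, _, _) => en (G.fam (y, a))
  | (5, a, _, _) => eb (G.can (y, a))
  | (6, a, _, _) => ((G.t (y, a) : ℝ) : EReal)
  | (7, a, x, b) => eb (G.same (y, a) (y + x, b))
  | (8, a, _, b) => eb (G.cr y a b)
  | (9, a, _, b) => eb (φ y a b)
  | (10, a, x, _) => ((((nrm G y (DD G y a)⁻¹).v x).1 : ℝ) : EReal)
  | (11, a, x, _) => ((((nrm G y (DD G y a)⁻¹).v x).2 : ℝ) : EReal)
  | (12, a, x, b) => (((nrm G y (DD G y a)⁻¹).s (x, b) : ℝ) : EReal)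
  | _ => 0

/-- the vertex map read off at the scale `l` -/
noncomputable def vv (ω : KK) (l : ℕ) (x : Z2) : ℝ × ℝ :=
  ((ω 0 (10, l, x, 0)).toReal, (ω 0 (11, l, x, 0)).toReal)

/-- the scale `l` gives a finite and nonzero vertex map -/
def Good (l : ℕ) (ω : KK) : Prop :=
  (∀ x, ω 0 (10, l, x, 0) ≠ ⊤ ∧ ω 0 (10, l, x, 0) ≠ ⊥ ∧ ω 0 (11, l, x, 0) ≠ ⊤ ∧
    ω 0 (11, l, x, 0) ≠ ⊥) ∧ ∃ x, vv ω l x ≠ 0

/-- the least good scale -/
noncomputable def lv (ω : KK) : ℕ := sInf {l | Good l ω}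

/-- the galaxy of a point of the code space -/
noncomputable def gal (ω : KK) : Gal where
  g := fun w => dn (ω w (0, 0, 0, 0))
  fam := fun l => Fin.ofNat 3 (dn (ω l.1 (4, l.2, 0, 0)))
  can := fun l => db (ω l.1 (5, l.2, 0, 0))
  same := fun l l' => db (ω l.1 (7, l.2, l'.1 - l.1, l'.2))
  cr := fun w j j' => db (ω w (8, j, 0, j'))
  tp := fun w => db (ω w (2, 0, 0, 0))
  tl := fun w i => dn (ω w (3, i.val, 0, 0))
  t := fun l => (ω l.1 (6, l.2, 0, 0)).toReal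
  s := fun l => (ω 0 (12, lv ω, l.1, l.2)).toReal
  v := fun x => vv ω (lv ω) x

/-- the bound for the local counts -/
noncomputable def FF (ω : KK) : ℝ≥0∞ := (ω 0 (1, 0, 0, 0)).toENNReal

open Classical in
/-- the flag: a cubic covers many triples with cells in the box of radius `u` around `y` -/
noncomputable def flag (T : Finset (Fin 3 → Pt)) (cell : (Fin 3 → Pt) → Z2) (y : Z2)
    (m u : ℕ) : Bool :=
  decide (Cub (1 / ((m : ℝ) + 1) * (u : ℝ) ^ 2) (T.filter fun τ => cell τ ∈ box y u))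

/-- limits of shifted codes at depth at least `m` -/
def Lam (c : ℕ → KK) (U : ℕ → Set Z2) (m : ℕ) : Set KK :=
  closure {x | ∃ n y, (∀ z ∈ box y m, z ∈ U n) ∧ x = sh y (c n)}

theorem mem_box {y w : Z2} {u : ℕ} : w ∈ box y u ↔
    (y.1 - u ≤ w.1 ∧ w.1 ≤ y.1 + u) ∧ (y.2 - u ≤ w.2 ∧ w.2 ≤ y.2 + u) := by
  simp [box, Finset.mem_product]

theorem add_mem_box {a y w : Z2} {u : ℕ} : a + w ∈ box (a + y) u ↔ w ∈ box y u := by
  simp only [mem_box, Prod.fst_add, Prod.snd_add]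
  omega

theorem shift_nrm (G : Gal) (y : Z2) {c : ℝ} (hc : 0 < c) : G.Shift (nrm G y c) y :=
  ⟨fun _ => rfl, fun _ _ => rfl, fun _ _ => rfl, fun _ _ _ _ => rfl, fun _ _ _ => rfl,
    fun _ => rfl, fun _ _ => rfl, fun _ _ => rfl, c, hc, fun _ => rfl, fun _ _ _ => rfl⟩

end ECub.N
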