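import Pool.Agent.P.MP_029dcd_co.F.N.Def

/-! Layer N: growth of the vertex map; count regularity from ergodic averages. -/

set_option autoImplicit false

namespace ECub.N

open CubicStab MeasureTheory Filter Topology Finset
open scoped ENNReal

/-- `q` is in the upper cone of `p` -/
def Up (p q : ℝ × ℝ) : Prop := |q.1 - p.1| ≤ 2 * (q.2 - p.2)

theorem Up.refl (p : ℝ × ℝ) : Up p p := by simp [Up]

theorem Up.trans {p q r : ℝ × ℝ} (h : Up p q) (h' : Up q r) : Up p r := by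
  unfold Up at *
  rw [abs_le] at *
  constructor <;> linarith [h.1, h.2, h'.1, h'.2]

theorem Up.le {p q : ℝ × ℝ} (h : Up p q) : p.2 ≤ q.2 := by
  have := (abs_nonneg _).trans h
  linarith

theorem Up.norm_le {p q : ℝ × ℝ} (h : Up p q) : ‖q - p‖ ≤ 2 * (q.2 - p.2) := by
  have h0 := h.le
  rw [Prod.norm_def]
  refine max_le h ?_
  rw [Prod.snd_sub, Real.norm_eq_abs, abs_of_nonneg (by linarith)]
  linarith

theorem up_of_cone {a b : ℝ} (h : |a - b| ≤ 1 / 100 * b) : |b| ≤ 2 * a := by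
  have h0 := (abs_nonneg _).trans h
  rw [abs_le] at *
  constructor <;> linarith [h.1, h.2]

section

variable {Γ : Gal}
  (h1 : ∀ w, |((Γ.v (w + (1, 0))).2 - (Γ.v w).2) - ((Γ.v w).1 - (Γ.v (w + (1, 0))).1)|
      ≤ 1 / 100 * ((Γ.v w).1 - (Γ.v (w + (1, 0))).1))
  (h2 : ∀ w, |((Γ.v (w + (0, 1))).2 - (Γ.v w).2) - ((Γ.v (w + (0, 1))).1 - (Γ.v w).1)|
      ≤ 1 / 100 * ((Γ.v (w + (0, 1))).1 - (Γ.v w).1))

include h1 h2 in
theorem up_add (w : Z2) (a b : ℕ) : Up (Γ.v w) (Γ.v (w + ((a : ℤ), (b : ℤ)))) := by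
  have s1 : ∀ w, Up (Γ.v w) (Γ.v (w + (1, 0))) := fun w => by
    have := up_of_cone (h1 w)
    rwa [abs_sub_comm] at this
  have s2 : ∀ w, Up (Γ.v w) (Γ.v (w + (0, 1))) := fun w => up_of_cone (h2 w)
  induction a with
  | zero =>
    induction b with
    | zero =>
      have : w + (((0 : ℕ) : ℤ), ((0 : ℕ) : ℤ)) = w := by ext <;> simp
      rw [this]
      exact Up.refl _
    | succ b ih =>
      have : w + (((0 : ℕ) : ℤ), ((b + 1 : ℕ) : ℤ)) = w + (((0 : ℕ) : ℤ), (b : ℤ)) + (0, 1) := by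
        ext <;> simp [add_assoc]
      rw [this]
      exact ih.trans (s2 _)
  | succ a ih =>
    have : w + (((a + 1 : ℕ) : ℤ), (b : ℤ)) = w + ((a : ℤ), (b : ℤ)) + (1, 0) := by
      ext <;> simp [add_assoc]
    rw [this]
    exact ih.trans (s1 _)

include h1 h2 in
theorem up_of_le {w w' : Z2} (ha : w.1 ≤ w'.1) (hb : w.2 ≤ w'.2) : Up (Γ.v w) (Γ.v w') := by
  have := up_add h1 h2 w (w'.1 - w.1).toNat (w'.2 - w.2).toNat
  have e : w + ((((w'.1 - w.1).toNat : ℕ) : ℤ), (((w'.2 - w.2).toNat : ℕ) : ℤ)) = w' := by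
    ext
    · simp only [Prod.fst_add]
      omega
    · simp only [Prod.snd_add]
      omega
  rwa [e] at this

include h1 h2 in
theorem R_mono : Monotone Γ.R := by
  intro a b hab
  have e1 := (up_of_le h1 h2 (w := ((a : ℤ), (a : ℤ))) (w' := ((b : ℤ), (b : ℤ)))
    (by simpa using hab) (by simpa using hab)).le
  have e2 := (up_of_le h1 h2 (w := (-(b : ℤ), -(b : ℤ))) (w' := (-(a : ℤ), -(a : ℤ)))
    (by simpa using hab) (by simpa using hab)).le
  unfold Gal.R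
  linarith

end

theorem R_le_norm (Γ : Gal) (u : ℕ) :
    Γ.R u ≤ ‖Γ.v ((u : ℤ), (u : ℤ)) - Γ.v (-(u : ℤ), -(u : ℤ))‖ := by
  refine le_trans ?_ (norm_snd_le _)
  rw [Prod.snd_sub, Real.norm_eq_abs]
  exact le_abs_self _

theorem sepr_tendsto {Γ : Gal} {C : ℝ}
    (h1 : ∀ w, |((Γ.v (w + (1, 0))).2 - (Γ.v w).2) - ((Γ.v w).1 - (Γ.v (w + (1, 0))).1)|
      ≤ 1 / 100 * ((Γ.v w).1 - (Γ.v (w + (1, 0))).1))
    (h2 : ∀ w, |((Γ.v (w + (0, 1))).2 - (Γ.v w).2) - ((Γ.v (w + (0, 1))).1 - (Γ.v w).1)|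
      ≤ 1 / 100 * ((Γ.v (w + (0, 1))).1 - (Γ.v w).1))
    (hq : ∀ᶠ n : ℕ in atTop, Γ.QS 0 n C) (hn : ∃ w, Γ.v w ≠ Γ.v 0) (w : Z2) :
    Tendsto (fun u => Γ.sepr w u) atTop atTop := by
  obtain ⟨l0, hl0⟩ := eventually_atTop.1 hq
  obtain ⟨x, hx⟩ := hn
  set l : ℕ := max l0 (x.1.natAbs + x.2.natAbs) with hl
  have hd : 0 < ‖Γ.v x - Γ.v 0‖ := norm_pos_iff.2 (sub_ne_zero.2 hx)
  have hup : ∀ n : ℕ, Up (Γ.v (-(n : ℤ), -(n : ℤ))) (Γ.v ((n : ℤ), (n : ℤ))) := fun n =>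
    up_of_le h1 h2 (by simp) (by simp)
  have q0 : ‖Γ.v x - Γ.v 0‖ ≤ C * ‖Γ.v ((l : ℤ), (l : ℤ)) - Γ.v (-(l : ℤ), -(l : ℤ))‖ := by
    refine hl0 l (le_max_left _ _) _ ?_ _ ?_ _ ?_ _ ?_ ?_
    · simp only [mem_box, Prod.fst_zero, Prod.snd_zero]
      omega
    · simp only [mem_box, Prod.fst_zero, Prod.snd_zero]
      omega
    · simp only [mem_box, Prod.fst_zero, Prod.snd_zero]
      omega
    · simp only [mem_box, Prod.fst_zero, Prod.snd_zero]
      omega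
    · refine le_max_of_le_left (le_trans ?_ (le_abs_self _))
      simp only
      omega
  have hC : 0 < C := by
    by_contra hC
    have := mul_nonpos_of_nonpos_of_nonneg (not_lt.1 hC)
      (norm_nonneg (Γ.v ((l : ℤ), (l : ℤ)) - Γ.v (-(l : ℤ), -(l : ℤ))))
    linarith
  have hRl : 0 < Γ.R l := by
    have := (hup l).norm_le
    have h3 : 0 < ‖Γ.v ((l : ℤ), (l : ℤ)) - Γ.v (-(l : ℤ), -(l : ℤ))‖ := by
      by_contra h4
      have := mul_nonpos_of_nonneg_of_nonpos hC.le (not_lt.1 h4)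
      linarith
    unfold Gal.R
    linarith
  have hmono := R_mono h1 h2
  have step : ∀ n, l ≤ n → Γ.R n + Γ.R l / (2 * C) ≤ Γ.R (3 * n) := by
    intro n hn
    have q1 : ‖Γ.v ((n : ℤ), (n : ℤ)) - Γ.v (-(n : ℤ), -(n : ℤ))‖ ≤
        C * ‖Γ.v (((3 * n : ℕ) : ℤ), ((3 * n : ℕ) : ℤ)) - Γ.v ((n : ℤ), (n : ℤ))‖ := by
      refine hl0 n ((le_max_left _ _).trans hn) _ ?_ _ ?_ _ ?_ _ ?_ ?_
      · simp only [mem_box, Prod.fst_zero, Prod.snd_zero]
        omega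
      · simp only [mem_box, Prod.fst_zero, Prod.snd_zero]
        omega
      · simp only [mem_box, Prod.fst_zero, Prod.snd_zero]
        omega
      · simp only [mem_box, Prod.fst_zero, Prod.snd_zero]
        omega
      · refine le_max_of_le_left (le_trans ?_ (le_abs_self _))
        simp only
        omega
    have u1 := (up_of_le h1 h2 (w := ((n : ℤ), (n : ℤ)))
      (w' := (((3 * n : ℕ) : ℤ), ((3 * n : ℕ) : ℤ))) (by simp only; omega)
      (by simp only; omega)).norm_le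
    have u2 := (up_of_le h1 h2 (w := (-((3 * n : ℕ) : ℤ), -((3 * n : ℕ) : ℤ)))
      (w' := (-(n : ℤ), -(n : ℤ))) (by simp only; omega) (by simp only; omega)).le
    have r1 := R_le_norm Γ n
    have r2 := hmono hn
    have r3 : Γ.R l / (2 * C) ≤ (Γ.v (((3 * n : ℕ) : ℤ), ((3 * n : ℕ) : ℤ))).2 -
        (Γ.v ((n : ℤ), (n : ℤ))).2 := by
      rw [div_le_iff₀ (by positivity)]
      have := mul_le_mul_of_nonneg_left u1 hC.le
      linarith
    unfold Gal.R at *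
    linarith
  have iter : ∀ i : ℕ, (i : ℝ) * (Γ.R l / (2 * C)) ≤ Γ.R (3 ^ i * l) := by
    intro i
    induction i with
    | zero => simpa using hRl.le
    | succ i ih =>
      have := step (3 ^ i * l) (Nat.le_mul_of_pos_left _ (by positivity))
      have e : 3 ^ (i + 1) * l = 3 * (3 ^ i * l) := by ring
      rw [e]
      push_cast
      linarith
  have hR : Tendsto Γ.R atTop atTop := by
    refine tendsto_atTop_atTop_of_monotone hmono fun b => ?_
    have hδ : 0 < Γ.R l / (2 * C) := by positivity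
    obtain ⟨i, hi⟩ := exists_nat_ge (b / (Γ.R l / (2 * C)))
    refine ⟨3 ^ i * l, le_trans ?_ (iter i)⟩
    rwa [div_le_iff₀ hδ] at hi
  refine tendsto_atTop_mono' atTop ?_ (hR.atTop_div_const hC)
  filter_upwards [eventually_ge_atTop (max l0 (w.1.natAbs + w.2.natAbs))] with u hu
  have key : ∀ w' : Z2, w' ∈ box 0 (3 * u) → (u : ℤ) ≤ max |w'.1 - w.1| |w'.2 - w.2| →
      Γ.R u / C ≤ ‖Γ.v w' - Γ.v w‖ := by
    intro w' hw' hd'
    rw [div_le_iff₀ hC, mul_comm]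
    refine (R_le_norm Γ u).trans (hl0 u ((le_max_left _ _).trans hu) _ hw' _ ?_ _ ?_ _ ?_ hd')
    · simp only [mem_box, Prod.fst_zero, Prod.snd_zero]
      omega
    · simp only [mem_box, Prod.fst_zero, Prod.snd_zero]
      omega
    · simp only [mem_box, Prod.fst_zero, Prod.snd_zero]
      omega
  unfold Gal.sepr
  refine le_min (le_min (key _ ?_ ?_) (key _ ?_ ?_)) (le_min (key _ ?_ ?_) (key _ ?_ ?_))
  all_goals first
    | (simp only [mem_box, Prod.fst_zero, Prod.snd_zero, Prod.fst_add, Prod.snd_add,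
        Prod.fst_sub, Prod.snd_sub]; omega)
    | simp

theorem cr_of_boxLim {Γ : Gal} {τ K : ℝ}
    (h1 : BoxLim (fun w => if Γ.tp w = true then (1 : ℝ) else 0) τ)
    (h2 : BoxLim (fun w => (Γ.g w : ℝ)) K) (A0 : ℕ) {ε : ℝ} (hε : 0 < ε) (A : ℕ) {e : ℝ}
    (he : 0 < e) : ∀ᶠ u : ℕ in atTop, ∀ y ∈ box 0 (A * u), ∀ n : ℕ, e * u ≤ n → n ≤ A * u →
      Γ.CR y (A0 * n) τ K (ε * (n : ℝ) ^ 2) := by
  classical
  filter_upwards [h1 (A + A0 * A) (ε * e ^ 2) (by positivity),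
    h2 (A + A0 * A) (ε * e ^ 2) (by positivity)] with u e1 e2 y hy n hn1 hn2
  intro a1 a2 b1 b2 i1 i2 i3 i4 i5 i6
  have hb : ((A + A0 * A : ℕ) : ℤ) * u = ((A * u : ℕ) : ℤ) + ((A0 * (A * u) : ℕ) : ℤ) := by
    push_cast
    ring
  have hm : A0 * n ≤ A0 * (A * u) := Nat.mul_le_mul_left _ hn2
  simp only [mem_box, Prod.fst_zero, Prod.snd_zero] at hy
  have f1 := e1 a1 a2 b1 b2 (by omega) i2 (by omega) (by omega) i5 (by omega)
  have f2 := e2 a1 a2 b1 b2 (by omega) i2 (by omega) (by omega) i5 (by omega)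
  have hle : ε * e ^ 2 * (u : ℝ) ^ 2 ≤ ε * (n : ℝ) ^ 2 := by
    rw [mul_assoc, ← mul_pow]
    gcongr
  rw [Finset.sum_boole] at f1
  rw [abs_le] at f1 f2
  constructor
  · have := f1.1
    linarith
  · have := f2.2
    linarith

end ECub.N
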