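import Pool.Agent.P.MP_029dcd_co.F.N.Grow

/-! Layer N: the axioms pass to the limit. -/

set_option autoImplicit false

namespace ECub.N

open CubicStab MeasureTheory Filter Topology Finset
open scoped ENNReal

/-- the discrete data agree on the cells of `B` -/
structure Agr (H Γ : Gal) (B : Finset Z2) : Prop where
  g : ∀ w ∈ B, H.g w = Γ.g w
  tp : ∀ w ∈ B, H.tp w = Γ.tp w
  tl : ∀ w ∈ B, Γ.tp w = true → ∀ i, H.tl w i = Γ.tl w i
  fam : ∀ l : Lb, l.1 ∈ B → Γ.valid l → H.fam l = Γ.fam l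
  can : ∀ l : Lb, l.1 ∈ B → Γ.valid l → H.can l = Γ.can l
  same : ∀ l l' : Lb, l.1 ∈ B → Γ.valid l → l'.1 ∈ B → Γ.valid l' → H.same l l' = Γ.same l l'
  cr : ∀ w ∈ B, ∀ j j', Γ.valid (w, j) → Γ.valid (w, j') → H.cr w j j' = Γ.cr w j j'

theorem Agr.valid {H Γ : Gal} {B : Finset Z2} (h : Agr H Γ B) {l : Lb} (hl : l.1 ∈ B) :
    H.valid l ↔ Γ.valid l := by
  unfold Gal.valid
  rw [h.g _ hl]

theorem finite_valid (Γ : Gal) (B : Finset Z2) : {l : Lb | l.1 ∈ B ∧ Γ.valid l}.Finite := by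
  refine ((B ×ˢ Finset.range (B.sup Γ.g)).finite_toSet).subset ?_
  rintro l ⟨h1, h2⟩
  simp only [Finset.coe_product, Set.mem_prod, Finset.mem_coe, Finset.mem_range]
  exact ⟨h1, lt_of_lt_of_le h2 (Finset.le_sup h1)⟩

variable {H : ℕ → Gal} {Γ : Gal}

theorem DLim.agr (h : DLim H Γ) (B : Finset Z2) : ∀ᶠ n in atTop, Agr (H n) Γ B := by
  have hf := finite_valid Γ B
  have e1 := (eventually_all_finset B).2 fun w _ => h.g w
  have e2 := (eventually_all_finset B).2 fun w _ => h.tp w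
  have e3 : ∀ᶠ n in atTop, ∀ w ∈ B, Γ.tp w = true → ∀ i, (H n).tl w i = Γ.tl w i := by
    refine (eventually_all_finset B).2 fun w _ => ?_
    by_cases hw : Γ.tp w = true
    · exact (eventually_all.2 (h.tl w hw)).mono fun n hn _ => hn
    · exact Eventually.of_forall fun n hn => absurd hn hw
  have e4 := (eventually_all_finite hf).2 fun l _ => h.fam l
  have e5 := (eventually_all_finite hf).2 fun l _ => h.can l
  have e6 := (eventually_all_finite hf).2 fun l _ =>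
    (eventually_all_finite hf).2 fun l' _ => h.same l l'
  have e7 := (eventually_all_finite hf).2 fun l _ =>
    (eventually_all_finite hf).2 fun l' _ => h.cr l.1 l.2 l'.2
  filter_upwards [e1, e2, e3, e4, e5, e6, e7] with n a1 a2 a3 a4 a5 a6 a7
  exact ⟨a1, a2, a3, fun l x y => a4 l ⟨x, y⟩, fun l x y => a5 l ⟨x, y⟩,
    fun l l' x y x' y' => a6 l ⟨x, y⟩ l' ⟨x', y'⟩,
    fun w hw j j' y y' => a7 (w, j) ⟨hw, y⟩ (w, j') ⟨hw, y'⟩⟩

theorem DLim.valid (h : DLim H Γ) (l : Lb) : ∀ᶠ n in atTop, ((H n).valid l ↔ Γ.valid l) :=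
  (h.g l.1).mono fun n hn => by
    unfold Gal.valid
    rw [hn]

theorem DLim.Can (h : DLim H Γ) (i : Fin 3) (l : Lb) :
    ∀ᶠ n in atTop, ((H n).Can i l ↔ Γ.Can i l) := by
  filter_upwards [h.valid l, h.fam l, h.can l] with n a b c
  unfold Gal.Can
  rw [a, b, c]

theorem DLim.tlab (h : DLim H Γ) {w : Z2} (hw : Γ.tp w = true) (i : Fin 3) :
    ∀ᶠ n in atTop, (H n).tlab w i = Γ.tlab w i :=
  (h.tl w hw i).mono fun n hn => by
    unfold Gal.tlab
    rw [hn]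

theorem DLim.cr_ev {H : ℕ → Gal} {Γ : Gal} (h : DLim H Γ) {y : Z2} {m : ℕ} {τ K δ : ℝ}
    (hc : Γ.CR y m τ K δ) : ∀ᶠ n in atTop, (H n).CR y m τ K δ := by
  classical
  filter_upwards [h.agr (box y m)] with n hn a1 a2 b1 b2 i1 i2 i3 i4 i5 i6
  have hsub : ∀ w ∈ Ico a1 a2 ×ˢ Ico b1 b2, w ∈ box y m := by
    intro w hw
    simp only [Finset.mem_product, Finset.mem_Ico] at hw
    rw [mem_box]
    omega
  have := hc a1 a2 b1 b2 i1 i2 i3 i4 i5 i6
  rw [Finset.filter_congr fun w hw => by rw [hn.tp w (hsub w hw)],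
    Finset.sum_congr rfl fun w hw => by rw [hn.g w (hsub w hw)]]
  exact this

theorem Lim.v1 (h : Lim H Γ) (w : Z2) :
    Tendsto (fun n => ((H n).v w).1) atTop (𝓝 (Γ.v w).1) := (h.v w).fst_nhds

theorem Lim.v2 (h : Lim H Γ) (w : Z2) :
    Tendsto (fun n => ((H n).v w).2) atTop (𝓝 (Γ.v w).2) := (h.v w).snd_nhds

theorem Lim.cs (h : Lim H Γ) (w : Z2) : Tendsto (fun n => (H n).cs w) atTop (𝓝 (Γ.cs w)) :=
  (h.v2 w).sub (h.v2 _)

theorem Lim.sepr (h : Lim H Γ) (w : Z2) (u : ℕ) :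
    Tendsto (fun n => (H n).sepr w u) atTop (𝓝 (Γ.sepr w u)) :=
  (((h.v _).sub (h.v w)).norm.min ((h.v _).sub (h.v w)).norm).min
    (((h.v _).sub (h.v w)).norm.min ((h.v _).sub (h.v w)).norm)

theorem Lim.qs (h : Lim H Γ) {y : Z2} {m : ℕ} {C : ℝ} (hq : ∀ᶠ n in atTop, (H n).QS y m C) :
    Γ.QS y m C := by
  intro w1 a1 w2 a2 w3 a3 w4 a4 hd
  refine le_of_tendsto_of_tendsto ((h.v w3).sub (h.v w4)).norm
    (((h.v w1).sub (h.v w2)).norm.const_mul C) ?_
  exact hq.mono fun n hn => hn w1 a1 w2 a2 w3 a3 w4 a4 hd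

theorem cub_mono {x x' : ℝ} {T : Finset (Fin 3 → Pt)} (h : Cub x T) (hx : x' ≤ x) : Cub x' T := by
  obtain ⟨f, a, b, c⟩ := h
  exact ⟨f, a, b, hx.trans c⟩

theorem nc_of_lim (h : DLim H Γ) {k : ℕ} {r : ℕ → Lb → Pt} {U : ℕ → Set Z2}
    (hL : ∀ n, Loc k (H n) (r n) (U n))
    (hc : ∀ m u0 : ℕ, ∃ u, u0 ≤ u ∧ ∀ᶠ n in atTop,
      ¬ Cub (1 / ((m : ℝ) + 1) * (u : ℝ) ^ 2) ((H n).trip (r n) (box 0 u))) : Γ.NC k := by
  classical
  intro η hη u0
  obtain ⟨m, hm⟩ := exists_nat_one_div_lt hη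
  obtain ⟨u, hu, he⟩ := hc m u0
  obtain ⟨n, hn, ha⟩ := (he.and (h.agr (box 0 u))).exists
  have L := hL n
  have tl : ∀ w ∈ box 0 u, Γ.tp w = true → ∀ i, Γ.tlab w i = (H n).tlab w i := by
    intro w hw ht i
    unfold Gal.tlab
    rw [ha.tl w hw ht i]
  refine ⟨u, hu, r n, ?_, ?_, ?_, ?_, ?_⟩
  · intro l l' v v' b b'
    have w := (ha.valid b).2 v
    have w' := (ha.valid b').2 v'
    exact ⟨by rw [← ha.same l l' b v b' v', L.same_iff l l' w w'], L.inj l l' w w'⟩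
  · intro z S hS hz
    refine L.few z S (fun p hp => ?_) hz
    obtain ⟨l, v, b, e⟩ := hS p hp
    exact ⟨l, (ha.valid b).2 v, e⟩
  · intro w hw ht
    simp only [tl w hw ht]
    exact L.col w ((ha.tp w hw).trans ht)
  · intro w hw w' hw' ht ht' z
    simp only [tl w hw ht, tl w' hw' ht']
    exact L.one w w' ((ha.tp w hw).trans ht) ((ha.tp w' hw').trans ht') z
  · have e : Γ.trip (r n) (box 0 u) = (H n).trip (r n) (box 0 u) := by
      unfold Gal.trip
      rw [show ((box 0 u).filter fun w => (H n).tp w = true) =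
        (box 0 u).filter fun w => Γ.tp w = true from
          Finset.filter_congr fun w hw => by rw [ha.tp w hw]]
      refine Finset.image_congr fun w hw => ?_
      simp only [Finset.coe_filter, Set.mem_ofPred_eq] at hw
      funext i
      rw [tl w hw.1 hw.2]
    rw [e]
    exact fun hcub => hn (cub_mono hcub (by gcongr))

theorem ax_of_lim {H : ℕ → Gal} {Γ : Gal} (h : Lim H Γ) {k : ℕ} {r : ℕ → Lb → Pt}
    {U : ℕ → Set Z2} (hL : ∀ n, Loc k (H n) (r n) (U n)) (hU : ∀ w, ∀ᶠ n in atTop, w ∈ U n)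
    {τ K C : ℝ} {A0 : ℕ} {ε : ℝ} {n0 : ℕ} (hε : 0 < ε)
    (hG : ∀ n, Geo (H n) (U n) τ K C A0 ε n0)
    (h1 : BoxLim (fun w => if Γ.tp w = true then (1 : ℝ) else 0) τ)
    (h2 : BoxLim (fun w => (Γ.g w : ℝ)) K) (hn : ∃ w, Γ.v w ≠ 0)
    (hc : ∀ m u0 : ℕ, ∃ u, u0 ≤ u ∧ ∀ᶠ n in atTop,
      ¬ Cub (1 / ((m : ℝ) + 1) * (u : ℝ) ^ 2) ((H n).trip (r n) (box 0 u))) :
    Γ.Ax k C := by
  classical
  have hD := h.toDLim
  have hUB : ∀ B : Finset Z2, ∀ᶠ n in atTop, ∀ x ∈ B, x ∈ U n := fun B =>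
    (eventually_all_finset B).2 fun x _ => hU x
  have vz : Γ.v 0 = 0 :=
    tendsto_nhds_unique (h.v 0) (by simp only [(hL _).v_zero]; exact tendsto_const_nhds)
  have crv : ∀ w j j', Γ.cr w j j' = true → Γ.valid (w, j) ∧ Γ.valid (w, j') ∧ j ≠ j' := by
    intro w j j' hcr
    obtain ⟨n, a, b, c⟩ := ((hD.cr w j j').and ((hD.valid (w, j)).and (hD.valid (w, j')))).exists
    have := (hL n).cr_valid w j j' (a.trans hcr)
    exact ⟨b.1 this.1, c.1 this.2.1, this.2.2⟩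
  have tpc : ∀ w, Γ.tp w = true → ∀ i, Γ.Can i (Γ.tlab w i) := by
    intro w hw i
    obtain ⟨n, a, b, c⟩ := ((hD.tp w).and ((hD.tlab hw i).and (hD.Can i (Γ.tlab w i)))).exists
    have := (hL n).tp_can w (a.trans hw) i
    rw [b] at this
    exact c.1 this
  have c1 : ∀ w, |((Γ.v (w + (1, 0))).2 - (Γ.v w).2) - ((Γ.v w).1 - (Γ.v (w + (1, 0))).1)|
      ≤ 1 / 100 * ((Γ.v w).1 - (Γ.v (w + (1, 0))).1) := by
    intro w
    refine le_of_tendsto_of_tendsto (((h.v2 _).sub (h.v2 w)).sub ((h.v1 w).sub (h.v1 _))).abs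
      (((h.v1 w).sub (h.v1 _)).const_mul _) ?_
    filter_upwards [hU w, hU (w + (1, 0))] with n a b
    exact (hL n).cone1 w a b
  have c2 : ∀ w, |((Γ.v (w + (0, 1))).2 - (Γ.v w).2) - ((Γ.v (w + (0, 1))).1 - (Γ.v w).1)|
      ≤ 1 / 100 * ((Γ.v (w + (0, 1))).1 - (Γ.v w).1) := by
    intro w
    refine le_of_tendsto_of_tendsto (((h.v2 _).sub (h.v2 w)).sub ((h.v1 _).sub (h.v1 w))).abs
      (((h.v1 _).sub (h.v1 w)).const_mul _) ?_
    filter_upwards [hU w, hU (w + (0, 1))] with n a b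
    exact (hL n).cone2 w a b
  have qs : ∀ A : ℕ, ∀ e : ℝ, 0 < e → ∀ᶠ u : ℕ in atTop, ∀ y ∈ box 0 (A * u), ∀ n : ℕ,
      e * u ≤ n → n ≤ A * u → Γ.QS y n C := by
    intro A e he
    have big : ∀ᶠ u : ℕ in atTop, (n0 : ℝ) ≤ e * u :=
      (tendsto_natCast_atTop_atTop.const_mul_atTop he).eventually_ge_atTop _
    filter_upwards [cr_of_boxLim h1 h2 A0 hε A he, big] with u hu hb y hy m m1 m2
    refine h.qs ?_
    filter_upwards [hD.cr_ev (hu y hy m m1 m2), hUB (box y (A0 * m))] with n a b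
    exact (hG n y m (by exact_mod_cast hb.trans m1) b a).1
  have grow : ∀ w, Tendsto (fun u => Γ.sepr w u) atTop atTop := by
    refine sepr_tendsto (C := C) c1 c2 ?_ (by rwa [vz])
    filter_upwards [qs 1 1 one_pos] with u hu
    refine hu 0 ?_ u (by simp) (by simp)
    simp [mem_box]
  refine
    { same_refl := ?_, same_symm := ?_, same_trans := ?_, same_cell := ?_, same_fam := ?_,
      same_t := ?_, same_s := ?_, slope := ?_, can_ex := ?_, can_uniq := ?_, cr_valid := crv,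
      cr_symm := ?_, cr_uniq := ?_, cr_ex := ?_, tp_can := tpc, tp_cr := ?_, tp_on := ?_,
      v_zero := vz, cone1 := c1, cone2 := c2, near := ?_, near_cr := ?_, qs := qs,
      nondeg := hn, nc := nc_of_lim hD hL hc }
  · intro l v
    obtain ⟨n, a, b⟩ := ((hD.valid l).and (hD.same l l)).exists
    rw [← b]
    exact ((hL n).same_iff l l (a.2 v) (a.2 v)).2 rfl
  · intro l l' v v' s
    obtain ⟨n, a, a', b, b'⟩ :=
      ((hD.valid l).and ((hD.valid l').and ((hD.same l l').and (hD.same l' l)))).exists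
    rw [← b']
    exact ((hL n).same_iff l' l (a'.2 v') (a.2 v)).2
      (((hL n).same_iff l l' (a.2 v) (a'.2 v')).1 (b.trans s)).symm
  · intro l l' l'' v v' v'' s s'
    obtain ⟨n, ⟨a, a', a''⟩, b, b', b''⟩ :=
      (((hD.valid l).and ((hD.valid l').and (hD.valid l''))).and
        ((hD.same l l').and ((hD.same l' l'').and (hD.same l l'')))).exists
    rw [← b'']
    exact ((hL n).same_iff l l'' (a.2 v) (a''.2 v'')).2
      ((((hL n).same_iff l l' (a.2 v) (a'.2 v')).1 (b.trans s)).trans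
        (((hL n).same_iff l' l'' (a'.2 v') (a''.2 v'')).1 (b'.trans s')))
  · intro w j j' v v' s
    obtain ⟨n, a, a', b⟩ :=
      ((hD.valid (w, j)).and ((hD.valid (w, j')).and (hD.same (w, j) (w, j')))).exists
    exact (hL n).same_cell w j j' (a.2 v) (a'.2 v') (b.trans s)
  · intro l l' v v' s
    obtain ⟨n, ⟨a, a', b⟩, c, c'⟩ :=
      (((hD.valid l).and ((hD.valid l').and (hD.same l l'))).and
        ((hD.fam l).and (hD.fam l'))).exists
    rw [← c, ← c']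
    exact (hL n).same_fam l l' (a.2 v) (a'.2 v') (b.trans s)
  · intro l l' v v' s
    refine tendsto_nhds_unique_of_eventuallyEq (h.t l v) (h.t l' v') ?_
    filter_upwards [hD.valid l, hD.valid l', hD.same l l'] with n a a' b
    exact (hL n).same_t l l' (a.2 v) (a'.2 v') (b.trans s)
  · intro l l' v v' s
    refine tendsto_nhds_unique_of_eventuallyEq (h.s l v) (h.s l' v') ?_
    filter_upwards [hD.valid l, hD.valid l', hD.same l l'] with n a a' b
    exact (hL n).same_s l l' (a.2 v) (a'.2 v') (b.trans s)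
  · intro l v
    refine le_of_tendsto ((h.t l v).sub_const _).abs ?_
    filter_upwards [hD.valid l, hD.fam l] with n a b
    rw [← b]
    exact (hL n).slope l (a.2 v)
  · intro l v b
    obtain ⟨u, hu⟩ := ((grow (b, b)).eventually_gt_atTop
      (100 * |Γ.t l * (Γ.v (b, b)).1 + Γ.s l - (Γ.v (b, b)).2|)).exists
    have e := (((((h.t l v).mul (h.v1 (b, b))).add (h.s l v)).sub (h.v2 (b, b))).abs.const_mul
      100).eventually_lt (h.sepr (b, b) u) hu
    obtain ⟨n, a1, a2, a3⟩ :=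
      (e.and ((hUB (box (b, b) (u + 1))).and (hD.agr (insert l.1 (box (b, b) (u + 1)))))).exists
    have m1 : l.1 ∈ insert l.1 (box (b, b) (u + 1)) := Finset.mem_insert_self _ _
    obtain ⟨l', ⟨x1, x2, x3⟩, x4, x5, x6⟩ := (hL n).can_loc l ((a3.valid m1).2 v) (b, b) u a2 a1
    have m2 : l'.1 ∈ insert l.1 (box (b, b) (u + 1)) := Finset.mem_insert_of_mem x6
    have v' := (a3.valid m2).1 x1
    rw [a3.fam l m1 v] at x2 x5
    refine ⟨l', ⟨v', (a3.fam l' m2 v').symm.trans x2, (a3.can l' m2 v').symm.trans x3⟩,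
      (a3.same l l' m1 v m2 v').symm.trans x4, x5.trans ?_⟩
    unfold idx
    split_ifs <;> rfl
  · intro i l l' a a' s e
    obtain ⟨n, b, b', c⟩ := ((hD.Can i l).and ((hD.Can i l').and (hD.same l l'))).exists
    exact (hL n).can_uniq i l l' (b.2 a) (b'.2 a') (c.trans s) e
  · intro w j j' s
    obtain ⟨n, a, b⟩ := ((hD.cr w j j').and (hD.cr w j' j)).exists
    rw [← b]
    exact (hL n).cr_symm w j j' (a.trans s)
  · intro w j j' w' m m' s s' t t'
    obtain ⟨n, a, a', b, b'⟩ := ((hD.cr w j j').and ((hD.cr w' m m').and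
      ((hD.same (w, j) (w', m)).and (hD.same (w, j') (w', m'))))).exists
    exact (hL n).cr_uniq w j j' w' m m' (a.trans s) (a'.trans s') (b.trans t) (b'.trans t')
  · intro l l' v v' hne
    have hd : Γ.t l - Γ.t l' ≠ 0 := sub_ne_zero.2 hne
    have tx : Tendsto (fun n => ((H n).s l' - (H n).s l) / ((H n).t l - (H n).t l')) atTop
        (𝓝 ((Γ.s l' - Γ.s l) / (Γ.t l - Γ.t l'))) :=
      ((h.s l' v').sub (h.s l v)).div ((h.t l v).sub (h.t l' v')) hd
    have tz := tx.prodMk_nhds (((h.t l v).mul tx).add (h.s l v))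
    obtain ⟨u, hu⟩ := ((grow 0).eventually_gt_atTop
      (100 * ‖((Γ.s l' - Γ.s l) / (Γ.t l - Γ.t l'),
        Γ.t l * ((Γ.s l' - Γ.s l) / (Γ.t l - Γ.t l')) + Γ.s l) - Γ.v 0‖)).exists
    have e := ((tz.sub (h.v 0)).norm.const_mul 100).eventually_lt (h.sepr 0 u) hu
    have e' := ((h.t l v).sub (h.t l' v')).eventually_ne hd
    obtain ⟨n, ⟨a1, a1'⟩, a2, a3⟩ := ((e.and e').and ((hUB (box 0 (u + 1))).and
      (hD.agr (insert l.1 (insert l'.1 (box 0 (u + 1))))))).exists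
    have m1 : l.1 ∈ insert l.1 (insert l'.1 (box 0 (u + 1))) := Finset.mem_insert_self _ _
    have m1' : l'.1 ∈ insert l.1 (insert l'.1 (box 0 (u + 1))) :=
      Finset.mem_insert_of_mem (Finset.mem_insert_self _ _)
    obtain ⟨w', x1, j, j', x2, x3, x4⟩ := (hL n).cr_loc l l' ((a3.valid m1).2 v)
      ((a3.valid m1').2 v') (sub_ne_zero.1 a1') _ rfl (by
        simp only
        field_simp
        ring) 0 u a2 a1
    have m2 : w' ∈ insert l.1 (insert l'.1 (box 0 (u + 1))) :=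
      Finset.mem_insert_of_mem (Finset.mem_insert_of_mem x1)
    have y := (hL n).cr_valid w' j j' x2
    have y1 := (a3.valid (l := (w', j)) m2).1 y.1
    have y2 := (a3.valid (l := (w', j')) m2).1 y.2.1
    exact ⟨w', j, j', (a3.cr w' m2 j j' y1 y2).symm.trans x2,
      (a3.same l (w', j) m1 v m2 y1).symm.trans x3,
      (a3.same l' (w', j') m1' v' m2 y2).symm.trans x4⟩
  · intro w hw i i' hi
    obtain ⟨n, a, b, b', c⟩ := ((hD.tp w).and ((hD.tl w hw i).and ((hD.tl w hw i').and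
      (hD.cr w (Γ.tl w i) (Γ.tl w i'))))).exists
    have := (hL n).tp_cr w (a.trans hw) i i' hi
    rw [b, b'] at this
    exact c.symm.trans this
  · intro w hw i
    have v := (tpc w hw i).1
    refine tendsto_nhds_unique_of_eventuallyEq (h.v2 w)
      (((h.t _ v).mul (h.v1 w)).add (h.s _ v)) ?_
    filter_upwards [hD.tp w, hD.tlab hw i] with n a b
    have := (hL n).tp_on w (a.trans hw) i
    rwa [b] at this
  · intro l v
    refine le_of_tendsto_of_tendsto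
      ((((h.t l v).mul (h.v1 l.1)).add (h.s l v)).sub (h.v2 l.1)).abs
      ((h.cs l.1).const_mul 6) ?_
    filter_upwards [hD.valid l, hU l.1] with n a b
    exact (hL n).near l (a.2 v) b
  · intro w j j' s
    obtain ⟨v, v', -⟩ := crv w j j' s
    refine le_of_tendsto_of_tendsto
      (((h.s _ v').sub (h.s _ v)).sub (((h.t _ v).sub (h.t _ v')).mul (h.v1 w))).abs
      (((h.cs w).const_mul 2).mul ((h.t _ v).sub (h.t _ v')).abs) ?_
    filter_upwards [hD.cr w j j', hU w] with n a b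
    exact (hL n).near_cr w j j' b (a.trans s)

theorem tsum_le_of_ev {ι : Type*} {a : ι → ℝ≥0∞} {b : ℕ → ι → ℝ≥0∞} {f : ℕ → ℝ≥0∞} {F : ℝ≥0∞}
    (hab : ∀ i, ∀ᶠ n in atTop, b n i = a i) (hb : ∀ n, ∑' i, b n i ≤ f n)
    (hF : Tendsto f atTop (𝓝 F)) : ∑' i, a i ≤ F := by
  rw [ENNReal.tsum_eq_iSup_sum]
  refine iSup_le fun s => ge_of_tendsto hF ?_
  filter_upwards [(eventually_all_finset s).2 fun i _ => hab i] with n hn
  rw [← Finset.sum_congr rfl hn]
  exact (ENNReal.sum_le_tsum s).trans (hb n)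

theorem int_of_lim {H : ℕ → Gal} {Γ : Gal} (h : DLim H Γ) {F : ℝ≥0∞}
    (hF : Tendsto (fun n => Fv (H n) 0) atTop (𝓝 F)) :
    (Γ.g 0 : ℝ≥0∞) ≤ F ∧ Γ.ncr 0 ≤ F ∧ ∑' j : ℕ, Γ.disp (0, j) ≤ F := by
  classical
  refine ⟨ge_of_tendsto hF ?_, ?_, ?_⟩
  · filter_upwards [h.g 0] with n hn
    rw [← hn]
    exact le_self_add.trans le_self_add
  · refine tsum_le_of_ev (b := fun n (p : ℕ × ℕ) =>
      if (H n).cr 0 p.1 p.2 = true then (1 : ℝ≥0∞) else 0) (fun p => ?_)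
      (fun n => le_add_self.trans le_self_add) hF
    filter_upwards [h.cr 0 p.1 p.2] with n hn
    rw [hn]
  · unfold Gal.disp
    rw [← ENNReal.tsum_prod]
    refine tsum_le_of_ev (b := fun n (p : ℕ × Lb) =>
      if (H n).Can ((H n).fam (0, p.1)) (0, p.1) ∧ (H n).Can ((H n).fam (0, p.1)) p.2 ∧
        (H n).same (0, p.1) p.2 = true ∧
          idx ((H n).fam (0, p.1)) p.2.1 = idx ((H n).fam (0, p.1)) (0 : Z2) + 1
      then ((oth ((H n).fam (0, p.1)) p.2.1 - oth ((H n).fam (0, p.1)) (0 : Z2)).natAbs : ℝ≥0∞)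
      else 0) (fun p => ?_) (fun n => ?_) hF
    · filter_upwards [h.fam (0, p.1), h.Can (Γ.fam (0, p.1)) (0, p.1),
        h.Can (Γ.fam (0, p.1)) p.2, h.same (0, p.1) p.2] with n a b c d
      simp only [a, b, c, d]
    · refine le_trans (le_of_eq ?_) le_add_self
      unfold Gal.disp
      rw [← ENNReal.tsum_prod]

theorem geo_of_lim {H H' : ℕ → Gal} {Γ Γ' : Gal} (h : Lim H Γ) (h' : Lim H' Γ') {w : Z2}
    (hs : ∀ n, (H n).Shift (H' n) w) (hn : ∃ a, Γ.v a ≠ Γ.v w) (hn' : ∃ x, Γ'.v x ≠ 0) :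
    ∃ c : ℝ, 0 < c ∧ (∀ x, Γ'.v x = c • (Γ.v (w + x) - Γ.v w)) ∧
      ∀ x j, Γ.valid (w + x, j) →
        Γ'.s (x, j) = c * (Γ.s (w + x, j) + Γ.t (w + x, j) * (Γ.v w).1 - (Γ.v w).2) := by
  choose c hc hv hss using fun n => (hs n).geo
  obtain ⟨a, ha⟩ := hn
  have hd : ‖Γ.v a - Γ.v w‖ ≠ 0 := norm_ne_zero_iff.2 (sub_ne_zero.2 ha)
  have t1 := ((h.v a).sub (h.v w)).norm
  have tc : Tendsto c atTop (𝓝 (‖Γ'.v (a - w)‖ / ‖Γ.v a - Γ.v w‖)) := by
    refine ((h'.v (a - w)).norm.div t1 hd).congr' ?_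
    filter_upwards [t1.eventually_ne hd] with n hn
    simp only [Pi.div_apply]
    rw [hv n, add_sub_cancel, norm_smul, Real.norm_eq_abs, abs_of_pos (hc n)]
    field_simp
  set c0 := ‖Γ'.v (a - w)‖ / ‖Γ.v a - Γ.v w‖
  have e1 : ∀ x, Γ'.v x = c0 • (Γ.v (w + x) - Γ.v w) := fun x =>
    tendsto_nhds_unique (h'.v x) ((tc.smul ((h.v _).sub (h.v w))).congr fun n => (hv n x).symm)
  have h0 : 0 ≤ c0 := by positivity
  refine ⟨c0, lt_of_le_of_ne h0 fun e => ?_, e1, fun x j v => ?_⟩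
  · obtain ⟨x, hx⟩ := hn'
    exact hx (by rw [e1, ← e, zero_smul])
  · have v' : Γ'.valid (x, j) := by
      obtain ⟨n, a1, a2⟩ := ((h.toDLim.valid (w + x, j)).and (h'.toDLim.valid (x, j))).exists
      refine a2.1 ?_
      have := a1.2 v
      unfold Gal.valid at this ⊢
      rw [(hs n).g]
      exact this
    refine tendsto_nhds_unique_of_eventuallyEq (h'.s _ v')
      (tc.mul (((h.s _ v).add ((h.t _ v).mul (h.v1 w))).sub (h.v2 w))) ?_
    filter_upwards [h.toDLim.valid (w + x, j)] with n a1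
    exact hss n x j (a1.2 v)

end ECub.N
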