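import Pool.Agent.P.MP_029dcd_co.F.N.Def

/-! Layer N: finite configurations seen from a cell. -/

set_option autoImplicit false

namespace ECub.N

open CubicStab MeasureTheory Filter Topology Finset
open scoped ENNReal

theorem lc_idx_add (i : Fin 3) (y x : Z2) : idx i (y + x) = idx i y + idx i x := by
  unfold idx
  split_ifs <;> rfl

theorem lc_oth_add (i : Fin 3) (y x : Z2) : oth i (y + x) = oth i y + oth i x := by
  unfold oth
  split_ifs <;> rfl

section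
variable {G H : Gal} {y : Z2} (hs : G.Shift H y)
include hs

theorem lc_valid (l : Lb) : H.valid l ↔ G.valid (y + l.1, l.2) := by
  unfold Gal.valid
  rw [hs.g]

theorem lc_fam (l : Lb) : H.fam l = G.fam (y + l.1, l.2) := hs.fam l.1 l.2

theorem lc_t (l : Lb) : H.t l = G.t (y + l.1, l.2) := hs.t l.1 l.2

theorem lc_same (l l' : Lb) : H.same l l' = G.same (y + l.1, l.2) (y + l'.1, l'.2) :=
  hs.same l.1 l.2 l'.1 l'.2

theorem lc_can (i : Fin 3) (l : Lb) : H.Can i l ↔ G.Can i (y + l.1, l.2) := by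
  unfold Gal.Can
  rw [lc_valid hs, lc_fam hs, show H.can l = G.can (y + l.1, l.2) from hs.can l.1 l.2]

theorem lc_tlab (w : Z2) (i : Fin 3) :
    ((y + (H.tlab w i).1, (H.tlab w i).2) : Lb) = G.tlab (y + w) i := by
  unfold Gal.tlab
  rw [hs.tl]

end

section
variable {G H : Gal} {y : Z2} {c : ℝ} (hc : 0 < c) (hv : ∀ x, H.v x = c • (G.v (y + x) - G.v y))
include hv

theorem lc_vsub (a b : Z2) : H.v a - H.v b = c • (G.v (y + a) - G.v (y + b)) := by
  rw [hv, hv, ← smul_sub]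
  congr 1
  abel

theorem lc_v1 (a : Z2) : (H.v a).1 = c * ((G.v (y + a)).1 - (G.v y).1) := by
  rw [hv]; rfl

theorem lc_v2 (a : Z2) : (H.v a).2 = c * ((G.v (y + a)).2 - (G.v y).2) := by
  rw [hv]; rfl

theorem lc_cs (w : Z2) : H.cs w = c * G.cs (y + w) := by
  unfold Gal.cs
  rw [lc_v2 hv, lc_v2 hv, add_sub_assoc]
  ring

include hc

theorem lc_nsub (a b : Z2) : ‖H.v a - H.v b‖ = c * ‖G.v (y + a) - G.v (y + b)‖ := by
  rw [lc_vsub hv, norm_smul, Real.norm_eq_abs, abs_of_pos hc]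

theorem lc_sepr (w : Z2) (u : ℕ) : H.sepr w u = c * G.sepr (y + w) u := by
  unfold Gal.sepr
  simp only [lc_nsub hc hv, mul_min_of_nonneg _ _ hc.le, add_assoc, add_sub_assoc]

end

theorem lc_abs {c a b a' b' : ℝ} (hc : 0 < c) (h : |a| ≤ b) (ha : a' = c * a) (hb : b' = c * b) :
    |a'| ≤ b' := by
  rw [ha, hb, abs_mul, abs_of_pos hc]
  exact mul_le_mul_of_nonneg_left h hc.le

theorem lc_box {y w : Z2} {u : ℕ} {Q : Z2 → Prop} (h : ∀ x ∈ box w u, Q (y + x)) :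
    ∀ x ∈ box (y + w) u, Q x := by
  intro x hx
  have e : x = y + (x - y) := by abel
  rw [e] at hx ⊢
  exact h _ (add_mem_box.1 hx)

theorem lc_box' {y w x : Z2} {u : ℕ} (h : x ∈ box (y + w) u) : x - y ∈ box w u := by
  have e : x = y + (x - y) := by abel
  rw [e] at h
  exact add_mem_box.1 h

theorem lc_tri {N : ℕ} {P : Fin 3 → Finset Pt} {T : Finset (Fin 3 → Pt)} {G : Gal}
    {lab : Lb → Pt} {cell : (Fin 3 → Pt) → Z2} (hF : FinAx N P T G lab cell) {w : Z2}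
    (hw : G.tp w = true) : ∃ τ ∈ T, cell τ = w ∧ ∀ i, lab (G.tlab w i) = τ i := by
  obtain ⟨τ, hτ, rfl⟩ := hF.tp_cell w hw
  exact ⟨τ, hτ, rfl, (hF.cell_tp τ hτ).2.2⟩

theorem loc_of_fin {k N : ℕ} {P : Fin 3 → Finset Pt} {T : Finset (Fin 3 → Pt)} {G : Gal}
    {lab : Lb → Pt} {cell : (Fin 3 → Pt) → Z2} (hT : TS k N P T) (hS : Std P)
    (hF : FinAx N P T G lab cell) {H : Gal} {y : Z2} (hs : G.Shift H y) :
    Loc k H (fun l => lab (y + l.1, l.2)) {x | InR P (y + x)} := by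
  obtain ⟨c, hc, hv, hss⟩ := hs.geo
  have hs' : ∀ l : Lb, H.valid l → H.s l = c * (G.s (y + l.1, l.2) +
      G.t (y + l.1, l.2) * (G.v y).1 - (G.v y).2) := fun l hl =>
    hss l.1 l.2 ((lc_valid hs l).1 hl)
  have hlab : ∀ l l' : Lb, H.valid l → H.valid l' → H.same l l' = true →
      lab (y + l.1, l.2) = lab (y + l'.1, l'.2) := fun l l' hl hl' h =>
    (hF.same_iff _ _ ((lc_valid hs l).1 hl) ((lc_valid hs l').1 hl')).1 (lc_same hs l l' ▸ h)
  have hoff : ∀ l : Lb, H.valid l → ∀ w : Z2, H.t l * (H.v w).1 + H.s l - (H.v w).2 =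
      c * (G.t (y + l.1, l.2) * (G.v (y + w)).1 + G.s (y + l.1, l.2) - (G.v (y + w)).2) := by
    intro l hl w
    rw [hs' l hl, lc_t hs, lc_v1 hv, lc_v2 hv]
    ring
  have hteq : ∀ l l' : Lb, H.valid l → H.valid l' → H.same l l' = true →
      G.t (y + l.1, l.2) = G.t (y + l'.1, l'.2) := by
    intro l l' hl hl' h
    rw [hF.lab_t _ ((lc_valid hs l).1 hl), hF.lab_t _ ((lc_valid hs l').1 hl'), hlab l l' hl hl' h]
  refine
    { same_iff := ?_, same_cell := ?_, same_fam := ?_, same_t := ?_, same_s := ?_, slope := ?_,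
      can_uniq := ?_, cr_valid := ?_, cr_symm := ?_, cr_uniq := ?_, tp_can := ?_, tp_cr := ?_,
      tp_on := ?_, v_zero := ?_, cone1 := ?_, cone2 := ?_, near := ?_, near_cr := ?_,
      can_loc := ?_, cr_loc := ?_, inj := ?_, few := ?_, col := ?_, one := ?_ }
  · intro l l' hl hl'
    rw [lc_same hs]
    exact hF.same_iff _ _ ((lc_valid hs l).1 hl) ((lc_valid hs l').1 hl')
  · intro w j j' hl hl' h
    exact hF.same_cell (y + w) j j' ((lc_valid hs _).1 hl) ((lc_valid hs _).1 hl')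
      (hlab _ _ hl hl' h)
  · intro l l' hl hl' h
    rw [lc_fam hs, lc_fam hs]
    by_contra hne
    have h1 := hF.lab_mem _ ((lc_valid hs l).1 hl)
    have h2 := hF.lab_mem _ ((lc_valid hs l').1 hl')
    rw [hlab l l' hl hl' h] at h1
    exact Finset.disjoint_left.1 (hT.disj _ _ hne) h1 h2
  · intro l l' hl hl' h
    rw [lc_t hs, lc_t hs, hteq l l' hl hl' h]
  · intro l l' hl hl' h
    rw [hs' l hl, hs' l' hl', hteq l l' hl hl' h, hF.lab_s _ ((lc_valid hs l).1 hl),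
      hF.lab_s _ ((lc_valid hs l').1 hl'), hlab l l' hl hl' h]
  · intro l hl
    rw [lc_t hs, lc_fam hs, hF.lab_t _ ((lc_valid hs l).1 hl)]
    exact hS _ _ (hF.lab_mem _ ((lc_valid hs l).1 hl))
  · intro i l l' hl hl' h hi
    have h1 := hF.can_uniq i _ _ ((lc_can hs i l).1 hl) ((lc_can hs i l').1 hl')
      (lc_same hs l l' ▸ h) (by simp only [lc_idx_add, hi])
    rw [Prod.mk.injEq] at h1
    exact Prod.ext (add_left_cancel h1.1) h1.2
  · intro w j j' h
    rw [hs.cr] at h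
    obtain ⟨h1, h2, h3⟩ := hF.cr_valid _ _ _ h
    exact ⟨(lc_valid hs _).2 h1, (lc_valid hs _).2 h2, h3⟩
  · intro w j j' h
    rw [hs.cr] at h ⊢
    exact hF.cr_symm _ _ _ h
  · intro w j j' w' m m' h h' h1 h2
    rw [hs.cr] at h h'
    rw [hs.same] at h1 h2
    exact add_left_cancel (hF.cr_uniq _ _ _ _ _ _ h h' h1 h2)
  · intro w hw i
    rw [hs.tp] at hw
    rw [lc_can hs, lc_tlab hs]
    exact hF.tp_can _ hw i
  · intro w hw i i' hi
    rw [hs.tp] at hw
    rw [hs.cr, hs.tl, hs.tl]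
    exact hF.tp_cr _ hw i i' hi
  · intro w hw i
    rw [hs.tp] at hw
    have hval : H.valid (H.tlab w i) := by
      rw [lc_valid hs, lc_tlab hs]
      exact (hF.tp_can _ hw i).1
    have h1 := hoff _ hval w
    rw [lc_tlab hs, hF.tp_on _ hw i, sub_self, mul_zero] at h1
    linarith
  · rw [hv, add_zero, sub_self, smul_zero]
  · intro w hw hw'
    have h1 := hF.cone1 (y + w) hw (by rw [add_assoc]; exact hw')
    rw [add_assoc] at h1
    simp only [lc_v1 hv, lc_v2 hv]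
    exact lc_abs hc h1 (by ring) (by ring)
  · intro w hw hw'
    have h1 := hF.cone2 (y + w) hw (by rw [add_assoc]; exact hw')
    rw [add_assoc] at h1
    simp only [lc_v1 hv, lc_v2 hv]
    exact lc_abs hc h1 (by ring) (by ring)
  · intro l hl hU
    rw [hoff l hl, lc_cs hv, abs_mul, abs_of_pos hc]
    have h1 := mul_le_mul_of_nonneg_left (hF.near _ ((lc_valid hs l).1 hl) hU) hc.le
    linarith
  · intro w j j' hU h
    rw [hs.cr] at h
    obtain ⟨h1, h2, -⟩ := hF.cr_valid _ _ _ h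
    rw [hss _ _ h1, hss _ _ h2, hs.t, hs.t, lc_v1 hv, lc_cs hv]
    exact lc_abs hc (hF.near_cr _ _ _ hU h) (by ring) (by ring)
  · intro l hl w u hU h
    rw [hoff l hl, lc_sepr hc hv, abs_mul, abs_of_pos hc] at h
    obtain ⟨l', h1, h2, h3, h4⟩ := hF.can_loc _ ((lc_valid hs l).1 hl) (y + w) u
      (lc_box (Q := InR P) hU) (lt_of_mul_lt_mul_left (by linarith) hc.le)
    have e : ((y + (l'.1 - y), l'.2) : Lb) = l' := by
      rw [add_sub_cancel]
    refine ⟨(l'.1 - y, l'.2), ?_, ?_, ?_, lc_box' h4⟩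
    · rw [lc_can hs, lc_fam hs, e]; exact h1
    · rw [lc_same hs, e]; exact h2
    · rw [lc_fam hs]
      have h5 := lc_idx_add (G.fam (y + l.1, l.2)) y (l'.1 - y)
      rw [add_sub_cancel, h3, lc_idx_add] at h5
      exact (add_left_cancel h5).symm
  · intro l l' hl hl' ht z hz hz' w u hU h
    have hon : ∀ m : Lb, H.valid m → H.t m * z.1 + H.s m = z.2 →
        On (lab (y + m.1, m.2)) (c⁻¹ • z + G.v y) := by
      intro m hm e
      have hm' := (lc_valid hs m).1 hm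
      rw [hs' m hm, lc_t hs] at e
      unfold On
      rw [← hF.lab_t _ hm', ← hF.lab_s _ hm']
      simp only [Prod.fst_add, Prod.snd_add, Prod.smul_fst, Prod.smul_snd, smul_eq_mul]
      rw [← e]
      field_simp
      ring
    have hn : ‖z - H.v w‖ = c * ‖c⁻¹ • z + G.v y - G.v (y + w)‖ := by
      have e : z - H.v w = c • (c⁻¹ • z + G.v y - G.v (y + w)) := by
        rw [hv, smul_sub, smul_sub, smul_add, smul_inv_smul₀ hc.ne']
        abel
      rw [e, norm_smul, Real.norm_eq_abs, abs_of_pos hc]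
    rw [hn, lc_sepr hc hv] at h
    rw [lc_t hs, lc_t hs] at ht
    obtain ⟨w', h1, j, j', h2, h3, h4⟩ := hF.cr_loc _ _ ((lc_valid hs l).1 hl)
      ((lc_valid hs l').1 hl') ht _ (hon l hl hz) (hon l' hl' hz') (y + w) u
      (lc_box (Q := InR P) hU) (lt_of_mul_lt_mul_left (by linarith) hc.le)
    refine ⟨w' - y, lc_box' h1, j, j', ?_, ?_, ?_⟩
    · rw [hs.cr, add_sub_cancel]; exact h2
    · rw [lc_same hs]; simp only [add_sub_cancel]; exact h3
    · rw [lc_same hs]; simp only [add_sub_cancel]; exact h4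
  · intro l l' hl hl' h
    exact hT.inj _ _ _ (hF.lab_mem _ ((lc_valid hs l).1 hl)) _
      (hF.lab_mem _ ((lc_valid hs l').1 hl')) h
  · intro z S hS' hz
    refine hT.few z S (fun p hp => ?_) hz
    obtain ⟨l, hl, rfl⟩ := hS' p hp
    exact ⟨_, hF.lab_mem _ ((lc_valid hs l).1 hl)⟩
  · intro w hw
    rw [hs.tp] at hw
    obtain ⟨τ, hτ, -, h2⟩ := lc_tri hF hw
    obtain ⟨z, hz⟩ := hT.col τ hτ
    refine ⟨z, fun i => ?_⟩
    simp only [lc_tlab hs, h2]
    exact hz i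
  · intro w w' hw hw' z hz hz'
    rw [hs.tp] at hw hw'
    obtain ⟨τ, hτ, h1, h2⟩ := lc_tri hF hw
    obtain ⟨τ', hτ', h1', h2'⟩ := lc_tri hF hw'
    simp only [lc_tlab hs, h2, h2'] at hz hz'
    have e := hT.one τ hτ τ' hτ' z hz hz'
    rw [e, h1'] at h1
    exact (add_left_cancel h1).symm

theorem lc_sum1 {M : Type*} [AddCommMonoid M] (f : ℤ → M) (y a1 a2 : ℤ) :
    ∑ a ∈ Ico a1 a2, f (y + a) = ∑ a ∈ Ico (a1 + y) (a2 + y), f a :=
  Finset.sum_Ico_add f a1 a2 y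

theorem lc_sum2 {M : Type*} [AddCommMonoid M] (f : Z2 → M) (y : Z2) (a1 a2 b1 b2 : ℤ) :
    ∑ w ∈ Ico a1 a2 ×ˢ Ico b1 b2, f (y + w)
      = ∑ w ∈ Ico (a1 + y.1) (a2 + y.1) ×ˢ Ico (b1 + y.2) (b2 + y.2), f w := by
  rw [Finset.sum_product, Finset.sum_product]
  rw [← lc_sum1 (fun a => ∑ b ∈ Ico (b1 + y.2) (b2 + y.2), f (a, b)) y.1 a1 a2]
  refine Finset.sum_congr rfl fun a _ => ?_
  rw [← lc_sum1 (fun b => f (y.1 + a, b)) y.2 b1 b2]
  rfl

theorem lc_CR {G H : Gal} {y : Z2} (hs : G.Shift H y) {x : Z2} {m : ℕ} {τ K δ : ℝ}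
    (h : H.CR x m τ K δ) : G.CR (y + x) m τ K δ := by
  intro a1 a2 b1 b2 h1 h2 h3 h4 h5 h6
  simp only [Prod.fst_add, Prod.snd_add] at h1 h3 h4 h6
  have h7 := h (a1 - y.1) (a2 - y.1) (b1 - y.2) (b2 - y.2) (by omega) (by omega) (by omega)
    (by omega) (by omega) (by omega)
  have e1 : a2 - y.1 - (a1 - y.1) = a2 - a1 := by ring
  have e2 : b2 - y.2 - (b1 - y.2) = b2 - b1 := by ring
  rw [e1, e2] at h7
  have e3 := lc_sum2 (fun w => (G.g w : ℝ)) y (a1 - y.1) (a2 - y.1) (b1 - y.2) (b2 - y.2)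
  have e4 := lc_sum2 (fun w => if G.tp w = true then 1 else 0 : Z2 → ℕ) y (a1 - y.1) (a2 - y.1)
    (b1 - y.2) (b2 - y.2)
  simp only [sub_add_cancel] at e3 e4
  simp only [hs.g, hs.tp, Finset.card_filter] at h7
  rw [e3, e4] at h7
  simpa only [Finset.card_filter] using h7

theorem Geo.shift {G H : Gal} {y : Z2} {U : Set Z2} {τ K C : ℝ} {A0 : ℕ} {ε : ℝ} {n0 : ℕ}
    (h : Geo G U τ K C A0 ε n0) (hs : G.Shift H y) :
    Geo H {x | y + x ∈ U} τ K C A0 ε n0 := by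
  obtain ⟨c, hc, hv, -⟩ := hs.geo
  intro x n hn hU hCR
  obtain ⟨h1, h2⟩ := h (y + x) n hn (lc_box (Q := fun z => z ∈ U) hU) (lc_CR hs hCR)
  refine ⟨?_, ?_⟩
  · intro w1 hw1 w2 hw2 w3 hw3 w4 hw4 hm
    have h3 := h1 _ (add_mem_box.2 hw1) _ (add_mem_box.2 hw2) _ (add_mem_box.2 hw3) _
      (add_mem_box.2 hw4) (by simpa only [Prod.fst_add, Prod.snd_add, add_sub_add_left_eq_sub]
        using hm)
    rw [lc_nsub hc hv, lc_nsub hc hv]
    have h4 := mul_le_mul_of_nonneg_left h3 hc.le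
    linarith
  · intro e
    apply h2
    have h3 := lc_vsub hv (x + ((n : ℤ), (n : ℤ))) (x - ((n : ℤ), (n : ℤ)))
    rw [e, sub_self] at h3
    rw [add_assoc, add_sub_assoc]
    exact sub_eq_zero.1 ((smul_eq_zero.1 h3.symm).resolve_left hc.ne')

open Classical in
theorem trip_shift {N : ℕ} {P : Fin 3 → Finset Pt} {T : Finset (Fin 3 → Pt)} {G : Gal}
    {lab : Lb → Pt} {cell : (Fin 3 → Pt) → Z2} (hF : FinAx N P T G lab cell)
    {H : Gal} {y : Z2} (hs : G.Shift H y) (u : ℕ) :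
    H.trip (fun l => lab (y + l.1, l.2)) (box 0 u) = T.filter fun τ => cell τ ∈ box y u := by
  ext τ
  simp only [Gal.trip, Finset.mem_image, Finset.mem_filter, lc_tlab hs, hs.tp]
  constructor
  · rintro ⟨w, ⟨hw, htp⟩, rfl⟩
    obtain ⟨τ, hτ, h1, h2⟩ := lc_tri hF htp
    have e : (fun i => lab (G.tlab (y + w) i)) = τ := funext h2
    rw [e, h1]
    refine ⟨hτ, ?_⟩
    have h3 := (add_mem_box (a := y)).2 hw
    rwa [add_zero] at h3
  · rintro ⟨hτ, hb⟩
    obtain ⟨h1, -, h2⟩ := hF.cell_tp τ hτ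
    refine ⟨cell τ - y, ⟨lc_box' (by rwa [add_zero]), ?_⟩, ?_⟩
    · rwa [add_sub_cancel]
    · rw [add_sub_cancel]
      exact funext h2

/-- translation of labels -/
def lc_tr (y : Z2) : Lb ≃ Lb := (Equiv.addLeft y).prodCongr (Equiv.refl ℕ)

open Classical in
theorem lc_disp {G H : Gal} {y : Z2} (hs : G.Shift H y) (l : Lb) :
    H.disp l = G.disp (y + l.1, l.2) := by
  unfold Gal.disp
  refine Eq.trans ?_ ((lc_tr y).tsum_eq _)
  refine tsum_congr fun l' => ?_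
  have e : lc_tr y l' = (y + l'.1, l'.2) := rfl
  rw [e]
  refine if_congr ?_ ?_ rfl
  · simp only [lc_can hs, lc_fam hs, lc_same hs, lc_idx_add, add_assoc, add_right_inj]
  · simp only [lc_fam hs, lc_oth_add, add_sub_add_left_eq_sub]

theorem Fv_shift {G H : Gal} {y : Z2} (hs : G.Shift H y) (x : Z2) : Fv H x = Fv G (y + x) := by
  unfold Fv Gal.ncr
  simp only [hs.g, hs.cr, lc_disp hs]

theorem shift_nrm_nrm (G : Gal) (y w : Z2) {c c' : ℝ} (hc : 0 < c) (hc' : 0 < c') :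
    (nrm G y c).Shift (nrm G (y + w) c') w := by
  refine ⟨fun x => ?_, fun x j => ?_, fun x j => ?_, fun x j x' j' => ?_, fun x j j' => ?_,
    fun x => ?_, fun x i => ?_, fun x j => ?_, c' / c, div_pos hc' hc, fun x => ?_,
    fun x j _ => ?_⟩
  all_goals simp only [nrm, add_assoc]
  · rw [← smul_sub, smul_smul, div_mul_cancel₀ _ hc.ne']
    congr 1
    abel
  · simp only [Prod.smul_fst, Prod.smul_snd, Prod.fst_sub, Prod.snd_sub, smul_eq_mul]
    field_simp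
    ring

end ECub.N
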